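import Mathlib

/-!
# Irreducible representations of solvable groups: a finite orbit of non-scalar endomorphisms
-/

namespace Pool.Agent.X300.GO

open Module

theorem finite_range_of_factors {α β X : Type*} [Finite X] (T : α → β) (κ : α → X)
    (h : ∀ a b, κ a = κ b → T a = T b) : (Set.range T).Finite := by
  classical
  by_cases hα : Nonempty α
  · have h1 : Set.range T ⊆ Set.range (fun x : X => T (Function.invFun κ x)) := by
      rintro _ ⟨a, rfl⟩
      exact ⟨κ a, h _ _ (Function.invFun_eq ⟨a, rfl⟩)⟩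
    exact (Set.finite_range _).subset h1
  · have h1 : Set.range T = ∅ := by
      rw [Set.range_eq_empty_iff]
      exact not_nonempty_iff.mp hα
    rw [h1]
    exact Set.finite_empty

variable {E : Type*} [Field E] {N : Type*} [AddCommGroup N] [Module E N] [FiniteDimensional E N]

theorem exists_common_eigenvector [IsAlgClosed E] {ι : Type*} (f : ι → End E N)
    (hf : ∀ i j, f i * f j = f j * f i) [Nontrivial N] :
    ∃ v : N, v ≠ 0 ∧ ∀ i, ∃ c : E, f i v = c • v := by
  classical
  let 𝒮 : Set (Submodule E N) := {W | W ≠ ⊥ ∧ ∀ i, ∀ w ∈ W, f i w ∈ W}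
  have hne : 𝒮.Nonempty := ⟨⊤, top_ne_bot, fun _ _ _ => trivial⟩
  obtain ⟨W, ⟨hW0, hW⟩, hmin⟩ := (wellFounded_lt (α := Submodule E N)).has_min 𝒮 hne
  obtain ⟨v, hv, hv0⟩ := Submodule.exists_mem_ne_zero_of_ne_bot hW0
  refine ⟨v, hv0, fun i => ?_⟩
  have : Nontrivial W := Submodule.nontrivial_iff_ne_bot.mpr hW0
  obtain ⟨c, hc⟩ := Module.End.exists_eigenvalue ((f i).restrict (hW i))
  obtain ⟨w, hw⟩ := hc.exists_hasEigenvector
  have hw1 : f i w.1 = c • w.1 := congrArg Subtype.val hw.apply_eq_smul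
  have hw0 : w.1 ≠ 0 := fun h => hw.2 (Subtype.ext h)
  let W' : Submodule E N := W ⊓ LinearMap.ker (f i - c • (1 : End E N))
  have hW' : W' ∈ 𝒮 := by
    refine ⟨?_, fun j x hx => ?_⟩
    · intro h
      have h1 : w.1 ∈ W' := by
        refine ⟨w.2, ?_⟩
        simp [hw1]
      rw [h] at h1
      exact hw0 ((Submodule.mem_bot E).mp h1)
    · refine ⟨hW j x hx.1, ?_⟩
      have h2 : f i x = c • x := by
        have := LinearMap.mem_ker.mp hx.2
        simpa [sub_eq_zero] using this
      have h3 : f i (f j x) = f j (f i x) := by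
        have := congrArg (fun g : End E N => g x) (hf i j)
        simpa using this
      change f j x ∈ LinearMap.ker (f i - c • (1 : End E N))
      rw [LinearMap.mem_ker]
      simp [h3, h2]
  have h4 : ¬ W' < W := hmin W' hW'
  have h5 : W' = W := (lt_or_eq_of_le (inf_le_left : W' ≤ W)).resolve_left h4
  have h6 : v ∈ W' := h5 ▸ hv
  refine ⟨c, ?_⟩
  have := LinearMap.mem_ker.mp h6.2
  simpa [sub_eq_zero] using this

theorem linearIndependent_of_characters {B M : Type*} [Monoid B] [AddCommGroup M] [Module E M]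
    (R : B → M →ₗ[E] M) (Ψ : Set (B →* E)) (v : Ψ → M) (hv0 : ∀ ψ, v ψ ≠ 0)
    (hv : ∀ y ψ, R y (v ψ) = ψ.1 y • v ψ) : LinearIndependent E v := by
  classical
  rw [linearIndependent_iff']
  intro s g hg ψ hψ
  have key : ∀ φ : Module.Dual E M, g ψ * φ (v ψ) = 0 := by
    intro φ
    have h1 : LinearIndependent E (fun χ : Ψ => (χ.1 : B → E)) :=
      (linearIndependent_monoidHom B E).comp (fun χ : Ψ => χ.1) Subtype.val_injective
    rw [linearIndependent_iff'] at h1
    refine h1 s (fun χ => g χ * φ (v χ)) ?_ ψ hψ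
    funext y
    have h2 := congrArg (fun x => φ (R y x)) hg
    simp only [map_sum, map_smul, map_zero, hv, smul_eq_mul] at h2
    simp only [Finset.sum_apply, Pi.smul_apply, smul_eq_mul, Pi.zero_apply]
    rw [← h2]
    refine Finset.sum_congr rfl fun χ _ => ?_
    ring
  have h3 : g ψ • v ψ = 0 := by
    rw [← Module.forall_dual_apply_eq_zero_iff E]
    intro φ
    rw [map_smul, smul_eq_mul]
    exact key φ
  exact (smul_eq_zero.mp h3).resolve_right (hv0 ψ)

variable {H : Type*} [Group H]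

/-- The operator `ρ g` is a scalar. -/
def IsScalar (T : End E N) : Prop := ∃ c : E, T = c • (1 : End E N)

theorem isUnit_rho (ρ : H →* End E N) (h : H) : IsUnit (ρ h) := (Group.isUnit h).map ρ

theorem rho_mul_inv (ρ : H →* End E N) (h : H) : ρ h * ρ h⁻¹ = 1 := by
  rw [← map_mul, mul_inv_cancel, map_one]

theorem rho_inv_mul (ρ : H →* End E N) (h : H) : ρ h⁻¹ * ρ h = 1 := by
  rw [← map_mul, inv_mul_cancel, map_one]

/-- Case 1: a non-central element which commutes with its conjugates. -/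
theorem finite_orbit_of_commute [IsAlgClosed E] [Nontrivial N] (ρ : H →* End E N)
    (hirr : ∀ W : Submodule E N, (∀ h, ∀ w ∈ W, ρ h w ∈ W) → W = ⊥ ∨ W = ⊤) (z : H)
    (hz : ∀ h h' : H, ρ (h * z * h⁻¹) * ρ (h' * z * h'⁻¹) = ρ (h' * z * h'⁻¹) * ρ (h * z * h⁻¹)) :
    (Set.range fun h : H => ρ (h * z * h⁻¹)).Finite := by
  classical
  obtain ⟨v, hv0, hv⟩ := exists_common_eigenvector (fun h : H => ρ (h * z * h⁻¹)) hz
  choose c hc using hv
  have h1 : ∀ g h : H, ρ (h * z * h⁻¹) (ρ g v) = c (g⁻¹ * h) • ρ g v := by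
    intro g h
    have e1 : ρ (h * z * h⁻¹) * ρ g = ρ g * ρ ((g⁻¹ * h) * z * (g⁻¹ * h)⁻¹) := by
      rw [← map_mul, ← map_mul]
      congr 1
      group
    have e2 := congrArg (fun T : End E N => T v) e1
    simp only [Module.End.mul_apply] at e2
    rw [e2, hc, map_smul]
  have hinj : ∀ (g : H) (x : N), ρ g x = 0 → x = 0 := by
    intro g x hx
    have := congrArg (fun T : End E N => T x) (rho_inv_mul ρ g)
    simp only [Module.End.mul_apply, Module.End.one_apply] at this
    rw [← this, hx, map_zero]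
  have h2 : Submodule.span E (Set.range fun g : H => ρ g v) = ⊤ := by
    refine (hirr _ ?_).resolve_left ?_
    · intro h w hw
      induction hw using Submodule.span_induction with
      | mem x hx =>
        obtain ⟨g, rfl⟩ := hx
        refine Submodule.subset_span ⟨h * g, ?_⟩
        simp only [map_mul, Module.End.mul_apply]
      | zero => rw [map_zero]; exact Submodule.zero_mem _
      | add x y _ _ hx hy => rw [map_add]; exact Submodule.add_mem _ hx hy
      | smul a x _ hx => rw [map_smul]; exact Submodule.smul_mem _ _ hx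
    · intro h
      have h3 : v ∈ Submodule.span E (Set.range fun g : H => ρ g v) :=
        Submodule.subset_span ⟨1, by simp⟩
      rw [h] at h3
      exact hv0 ((Submodule.mem_bot E).mp h3)
  obtain ⟨S, hS, hspan⟩ := Submodule.fg_span_iff_fg_span_finset_subset _ |>.mp
    (h2 ▸ (Module.finite_def.mp (inferInstance : Module.Finite E N)))
  have hev : ∀ k : H, (ρ z).HasEigenvalue (c k) := by
    intro k
    refine Module.End.hasEigenvalue_of_hasEigenvector (x := ρ k⁻¹ v)
      ⟨Module.End.mem_eigenspace_iff.mpr ?_, fun h => hv0 (hinj _ _ h)⟩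
    have e1 : ρ z * ρ k⁻¹ = ρ k⁻¹ * ρ (k * z * k⁻¹) := by
      rw [← map_mul, ← map_mul]
      congr 1
      group
    have e2 := congrArg (fun T : End E N => T v) e1
    simp only [Module.End.mul_apply] at e2
    rw [e2, hc, map_smul]
  have hfin : Finite {a : E // (ρ z).HasEigenvalue a} := Module.End.finite_hasEigenvalue (ρ z)
  choose! γ hγ using fun (x : N) (hx : x ∈ Set.range fun g : H => ρ g v) => hx
  refine finite_range_of_factors (X := S → {a : E // (ρ z).HasEigenvalue a}) _
    (fun h s => ⟨c ((γ s.1)⁻¹ * h), hev _⟩) fun a b hab => ?_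
  have h5 : ∀ s ∈ S, ρ (a * z * a⁻¹) s = ρ (b * z * b⁻¹) s := by
    intro s hs
    have e1 := h1 (γ s) a
    have e2 := h1 (γ s) b
    have e3 : ρ (γ s) v = s := hγ s (hS hs)
    have e4 : c ((γ s)⁻¹ * a) = c ((γ s)⁻¹ * b) := congrArg Subtype.val (congrFun hab ⟨s, hs⟩)
    rw [e3] at e1 e2
    rw [e1, e2, e4]
  refine LinearMap.ext_on (hspan ▸ h2) h5

/-- Case 2: all elements of a normal subgroup commute up to scalars, and the only elements which
commute with this subgroup are the scalars. -/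
theorem finite_orbit_of_projective [Nontrivial N] (ρ : H →* End E N) (B : Subgroup H)
    (hB : B.Normal) (hcomm : ∀ y ∈ B, ∀ z ∈ B, ∃ c : E, ρ (y * z * y⁻¹) = c • ρ z)
    (hcent : ∀ z ∈ B, (∀ y ∈ B, ρ y * ρ z = ρ z * ρ y) → IsScalar (ρ z)) (b : H) (hb : b ∈ B) :
    (Set.range fun h : H => ρ (h * b * h⁻¹)).Finite := by
  classical
  have hne : ∀ h : H, ρ h ≠ 0 := by
    intro h h0
    have := rho_mul_inv ρ h
    rw [h0, zero_mul] at this
    exact zero_ne_one this
  choose! c hc using hcomm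
  have hcmul : ∀ y ∈ B, ∀ y' ∈ B, ∀ z ∈ B, c (y * y') z = c y z * c y' z := by
    intro y hy y' hy' z hz
    have e1 := hc (y * y') (B.mul_mem hy hy') z hz
    have e2 : ρ (y * y' * z * (y * y')⁻¹) = ρ y * ρ (y' * z * y'⁻¹) * ρ y⁻¹ := by
      rw [← map_mul, ← map_mul]
      congr 1
      group
    rw [e2, hc y' hy' z hz] at e1
    have e3 : ρ y * (c y' z • ρ z) * ρ y⁻¹ = (c y z * c y' z) • ρ z := by
      rw [mul_smul_comm, smul_mul_assoc, ← map_mul, ← map_mul, hc y hy z hz, smul_smul, mul_comm]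
    rw [e3] at e1
    exact (smul_left_injective E (hne z) e1.symm)
  have hcone : ∀ z ∈ B, c 1 z = 1 := by
    intro z hz
    have e1 := hc 1 B.one_mem z hz
    have e2 : (1 : E) • ρ z = c 1 z • ρ z := by
      rw [one_smul, ← e1]
      congr 1
      group
    exact (smul_left_injective E (hne z) e2).symm
  let cj : H → B := fun h => ⟨h * b * h⁻¹, hB.conj_mem b hb h⟩
  let ψ : H → (B →* E) := fun h =>
    { toFun := fun y => c y.1 (cj h).1
      map_one' := hcone _ (cj h).2
      map_mul' := fun y y' => hcmul _ y.2 _ y'.2 _ (cj h).2 }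
  let Ψ : Set (B →* E) := Set.range ψ
  choose h₀ hh₀ using fun x : Ψ => x.2
  let v : Ψ → End E N := fun x => ρ (cj (h₀ x)).1
  have hlin : LinearIndependent E v := by
    refine linearIndependent_of_characters
      (fun y : B => LinearMap.mulLeft E (ρ y.1) ∘ₗ LinearMap.mulRight E (ρ y.1⁻¹)) Ψ v
      (fun x => hne _) fun y x => ?_
    have e1 := hc y.1 y.2 (cj (h₀ x)).1 (cj (h₀ x)).2
    have e2 : x.1 y = c y.1 (cj (h₀ x)).1 := by
      rw [← hh₀ x]
      rfl
    rw [e2]
    simp only [LinearMap.comp_apply, LinearMap.mulLeft_apply, LinearMap.mulRight_apply]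
    change ρ y.1 * (ρ (cj (h₀ x)).1 * ρ y.1⁻¹) = c y.1 (cj (h₀ x)).1 • ρ (cj (h₀ x)).1
    rw [← e1, ← map_mul, ← map_mul]
    congr 1
    group
  have : Finite Ψ := hlin.finite_of_isNoetherian
  -- same character: differ by a scalar
  have hsame : ∀ h h' : H, ψ h = ψ h' → ∃ a : E, ρ (cj h).1 = a • ρ (cj h').1 := by
    intro h h' e
    have h1 : IsScalar (ρ ((cj h).1 * (cj h').1⁻¹)) := by
      refine hcent _ (B.mul_mem (cj h).2 (B.inv_mem (cj h').2)) fun y hy => ?_
      have e1 := hc y hy (cj h).1 (cj h).2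
      have e2 := hc y hy (cj h').1 (cj h').2
      have e3 : c y (cj h).1 = c y (cj h').1 := congrArg (fun f : B →* E => f ⟨y, hy⟩) e
      have e4 : ρ (y * (cj h).1 * y⁻¹) * ρ (y * (cj h').1⁻¹ * y⁻¹) =
          ρ (cj h).1 * ρ (cj h').1⁻¹ := by
        have e5 : c y (cj h').1 • ρ (y * (cj h').1⁻¹ * y⁻¹) = ρ (cj h').1⁻¹ := by
          have e6 : ρ (y * (cj h').1⁻¹ * y⁻¹) * ρ (y * (cj h').1 * y⁻¹) = 1 := by
            rw [← map_mul]
            have : y * (cj h').1⁻¹ * y⁻¹ * (y * (cj h').1 * y⁻¹) = 1 := by group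
            rw [this, map_one]
          rw [e2, mul_smul_comm] at e6
          have e7 : c y (cj h').1 • ρ (y * (cj h').1⁻¹ * y⁻¹) =
              c y (cj h').1 • (ρ (y * (cj h').1⁻¹ * y⁻¹) * ρ (cj h').1) * ρ (cj h').1⁻¹ := by
            rw [smul_mul_assoc, mul_assoc (ρ (y * (cj h').1⁻¹ * y⁻¹)), rho_mul_inv, mul_one]
          rw [e7, e6, one_mul]
        rw [e1, e3, smul_mul_assoc, ← mul_smul_comm, e5]
      have e8 : ρ (y * ((cj h).1 * (cj h').1⁻¹) * y⁻¹) = ρ ((cj h).1 * (cj h').1⁻¹) := by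
        rw [map_mul ρ (cj h).1, ← e4, ← map_mul]
        congr 1
        group
      have e9 := congrArg (fun T : End E N => T * ρ y) e8
      rw [← map_mul, ← map_mul] at e9
      rw [← map_mul, ← map_mul, ← e9]
      congr 1
      group
    obtain ⟨a, ha⟩ := h1
    refine ⟨a, ?_⟩
    have e1 := congrArg (fun T : End E N => T * ρ (cj h').1) ha
    rw [← map_mul, smul_mul_assoc, one_mul] at e1
    rw [← e1]
    congr 1
    group
  have hdet : ∀ h : H, LinearMap.det (ρ (cj h).1) = LinearMap.det (ρ b) := by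
    intro h
    change LinearMap.det (ρ (h * b * h⁻¹)) = _
    rw [map_mul, map_mul, map_mul, map_mul, mul_comm (LinearMap.det (ρ h)), mul_assoc,
      ← map_mul LinearMap.det, rho_mul_inv, map_one, mul_one]
  have hdet0 : LinearMap.det (ρ b) ≠ 0 := by
    intro h0
    have := congrArg LinearMap.det (rho_mul_inv ρ b)
    rw [map_mul, h0, zero_mul, map_one] at this
    exact zero_ne_one this
  have hd : 0 < finrank E N := finrank_pos
  have hroot : ∀ h h' : H, ψ h = ψ h' →
      ∃ a : {a : E // a ^ finrank E N = 1}, ρ (cj h).1 = a.1 • ρ (cj h').1 := by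
    intro h h' e
    obtain ⟨a, ha⟩ := hsame h h' e
    refine ⟨⟨a, ?_⟩, ha⟩
    have e1 := congrArg LinearMap.det ha
    rw [LinearMap.det_smul, hdet, hdet] at e1
    have e2 : (a ^ finrank E N - 1) * LinearMap.det (ρ b) = 0 := by
      rw [sub_mul, one_mul, ← e1, sub_self]
    exact sub_eq_zero.mp ((mul_eq_zero.mp e2).resolve_right hdet0)
  have : Finite {a : E // a ^ finrank E N = 1} := by
    have : {a : E | a ^ finrank E N = 1}.Finite := by
      refine ((Polynomial.nthRoots (finrank E N) (1 : E)).toFinset.finite_toSet).subset ?_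
      intro a ha
      simp only [Finset.mem_coe, Multiset.mem_toFinset]
      exact (Polynomial.mem_nthRoots hd).mpr ha
    exact this
  choose a ha using fun h : H => hroot h (h₀ ⟨ψ h, h, rfl⟩) (hh₀ ⟨ψ h, h, rfl⟩).symm
  refine finite_range_of_factors (X := Ψ × {a : E // a ^ finrank E N = 1}) _
    (fun h => (⟨ψ h, h, rfl⟩, a h)) fun h h' e => ?_
  have e1 : ψ h = ψ h' := congrArg (fun x => x.1.1) e
  have e2 : a h = a h' := congrArg Prod.snd e
  have e3 : (⟨ψ h, h, rfl⟩ : Ψ) = ⟨ψ h', h', rfl⟩ := congrArg Prod.fst e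
  change ρ (cj h).1 = ρ (cj h').1
  rw [ha h, ha h', e2, e3]

/-- Lemma S. An irreducible representation of dimension at least 2 in which a term of the derived
series acts trivially has a non-scalar endomorphism with finitely many conjugates. -/
theorem exists_finite_orbit [IsAlgClosed E] [Nontrivial N] (ρ : H →* End E N)
    (hirr : ∀ W : Submodule E N, (∀ h, ∀ w ∈ W, ρ h w ∈ W) → W = ⊥ ∨ W = ⊤)
    (hdim : finrank E N ≠ 1) (m : ℕ) (hm : ∀ g ∈ derivedSeries H m, ρ g = 1) :
    ∃ T : End E N, ¬ IsScalar T ∧ (Set.range fun h : H => ρ h * T * ρ h⁻¹).Finite := by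
  classical
  have hex : ∃ k, ∀ g ∈ derivedSeries H k, IsScalar (ρ g) :=
    ⟨m, fun g hg => ⟨1, by rw [hm g hg, one_smul]⟩⟩
  have hk := Nat.find_spec hex
  have hk' := fun j hj => Nat.find_min hex (m := j) hj
  set k := Nat.find hex with hkdef
  have hk0 : k ≠ 0 := by
    intro h0
    rw [h0] at hk
    obtain ⟨v, hv⟩ := exists_ne (0 : N)
    have h1 : Submodule.span E {v} = ⊤ := by
      refine (hirr _ fun h w hw => ?_).resolve_left ?_
      · obtain ⟨c, hc⟩ := hk h (by simp [derivedSeries_zero])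
        rw [hc]
        exact Submodule.smul_mem _ _ hw
      · rw [Submodule.span_singleton_eq_bot]
        exact hv
    exact hdim (by rw [← finrank_top E N, ← h1, finrank_span_singleton hv])
  obtain ⟨j, hj⟩ := Nat.exists_eq_succ_of_ne_zero hk0
  have hB : ¬ ∀ g ∈ derivedSeries H j, IsScalar (ρ g) := hk' j (by omega)
  push Not at hB
  obtain ⟨b, hb, hbs⟩ := hB
  have hnormal : (derivedSeries H j).Normal := derivedSeries_normal H j
  have hcomm : ∀ y ∈ derivedSeries H j, ∀ z ∈ derivedSeries H j,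
      ∃ c : E, ρ (y * z * y⁻¹) = c • ρ z := by
    intro y hy z hz
    have h1 : y * z * y⁻¹ * z⁻¹ ∈ derivedSeries H k := by
      rw [hj, Nat.succ_eq_add_one, derivedSeries_succ]
      exact Subgroup.commutator_mem_commutator hy hz
    obtain ⟨c, hc⟩ := hk _ h1
    refine ⟨c, ?_⟩
    have h2 := congrArg (fun T : End E N => T * ρ z) hc
    rw [← map_mul, smul_mul_assoc, one_mul, inv_mul_cancel_right] at h2
    exact h2
  have hconj : ∀ (h z : H), ρ h * ρ z * ρ h⁻¹ = ρ (h * z * h⁻¹) := by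
    intro h z
    rw [map_mul, map_mul]
  by_cases hcase : ∀ z ∈ derivedSeries H j,
      (∀ y ∈ derivedSeries H j, ρ y * ρ z = ρ z * ρ y) → IsScalar (ρ z)
  · refine ⟨ρ b, hbs, ?_⟩
    simp only [hconj]
    exact finite_orbit_of_projective ρ _ hnormal hcomm hcase b hb
  · push Not at hcase
    obtain ⟨z, hz, hzc, hzs⟩ := hcase
    refine ⟨ρ z, hzs, ?_⟩
    simp only [hconj]
    refine finite_orbit_of_commute ρ hirr z fun h h' => ?_
    have h1 : h⁻¹ * (h' * z * h'⁻¹) * h ∈ derivedSeries H j := by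
      have := hnormal.conj_mem (h' * z * h'⁻¹) (hnormal.conj_mem z hz h') h⁻¹
      rwa [inv_inv] at this
    have h2 := hzc _ h1
    rw [← map_mul, ← map_mul] at h2
    have h3 := congrArg (fun T : End E N => ρ h * T * ρ h⁻¹) h2
    rw [← map_mul, ← map_mul, ← map_mul, ← map_mul] at h3
    rw [← map_mul, ← map_mul]
    have e1 : h * z * h⁻¹ * (h' * z * h'⁻¹) = h * (z * (h⁻¹ * (h' * z * h'⁻¹) * h)) * h⁻¹ := by
      group
    have e2 : h' * z * h'⁻¹ * (h * z * h⁻¹) = h * ((h⁻¹ * (h' * z * h'⁻¹) * h) * z) * h⁻¹ := by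
      group
    rw [e1, e2, ← h3]

end Pool.Agent.X300.GO
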