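import Pool.Agent.X307.LO.Key
import Pool.Agent.X300.GO.Alg

/-!
# Irreducible representations of profinite groups, virtually solvable on a normal subgroup
-/

namespace Pool.Agent.X300.GO

open Module Topology Filter
open Pool.Agent.X307.LO

/-- A function with finitely many values and continuous coordinates is locally constant. -/
theorem eventually_eq_of_finite {X M E ι : Type*} [TopologicalSpace X] [TopologicalSpace E]
    [T1Space E] (f : X → M) (F : ι → M → E) (hF : ∀ i, Continuous fun x => F i (f x))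
    (hsep : ∀ m m', (∀ i, F i m = F i m') → m = m') (hfin : (Set.range f).Finite) (x₀ : X) :
    ∀ᶠ x in 𝓝 x₀, f x = f x₀ := by
  classical
  by_cases hι : Nonempty ι
  swap
  · exact Filter.Eventually.of_forall fun x => hsep _ _ fun i => absurd ⟨i⟩ hι
  have h1 : ∀ m : M, m ≠ f x₀ → ∃ i, F i (f x₀) ≠ F i m := by
    intro m hm
    by_contra hcon
    push Not at hcon
    exact hm (hsep _ _ hcon).symm
  choose! i hi using h1
  have h2 : ∀ᶠ x in 𝓝 x₀, ∀ m ∈ Set.range f, m ≠ f x₀ → F (i m) (f x) ≠ F (i m) m := by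
    rw [Filter.eventually_all_finite hfin]
    intro m _
    by_cases hm : m = f x₀
    · exact Filter.Eventually.of_forall fun x h => absurd hm h
    · exact ((hF (i m)).continuousAt.eventually_ne (hi m hm)).mono fun x hx _ => hx
  refine h2.mono fun x hx => ?_
  by_contra hcon
  exact hx (f x) ⟨x, rfl⟩ hcon rfl

section

variable {G : Type} [Group G] [TopologicalSpace G] [IsTopologicalGroup G] [CompactSpace G]
  [TotallyDisconnectedSpace G]

theorem exists_open_normal {p : G → Prop} (h : ∀ᶠ g in 𝓝 (1 : G), p g) :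
    ∃ U : Subgroup G, IsOpen (U : Set G) ∧ U.Normal ∧ ∀ g ∈ U, p g := by
  obtain ⟨W, hW, hWo, h1⟩ := mem_nhds_iff.mp h
  obtain ⟨H, hH⟩ := ProfiniteGrp.exist_openNormalSubgroup_sub_open_nhds_of_one hWo h1
  exact ⟨H.toSubgroup, H.isOpen', H.isNormal', fun g hg => hW (hH hg)⟩

omit [CompactSpace G] [TotallyDisconnectedSpace G] in
theorem eventually_subgroup (S : Subgroup G) {p : S → Prop} (h : ∀ᶠ g in 𝓝 (1 : S), p g) :
    ∀ᶠ g in 𝓝 (1 : G), ∀ hg : g ∈ S, p ⟨g, hg⟩ := by
  rw [nhds_subtype_eq_comap, Filter.eventually_comap] at h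
  exact h.mono fun g hg hgS => hg ⟨g, hgS⟩ rfl

omit [IsTopologicalGroup G] [CompactSpace G] [TotallyDisconnectedSpace G] in
theorem eventually_mem {U : Subgroup G} (hU : IsOpen (U : Set G)) : ∀ᶠ g in 𝓝 (1 : G), g ∈ U :=
  hU.mem_nhds U.one_mem

end

section

variable {E : Type} [Field E] [TopologicalSpace E] [IsTopologicalRing E]
  {G : Type} [Group G] [TopologicalSpace G]

/-- The determinant is a character. -/
noncomputable def detChar (B : CRep E G) : CChar E G where
  χ := LinearMap.det.comp B.ρ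
  cont := by
    have h1 : (fun g => LinearMap.det (B.ρ g)) = fun g =>
        (LinearMap.toMatrix (finBasis E B.V) (finBasis E B.V) (B.ρ g)).det := by
      funext g
      rw [LinearMap.det_toMatrix]
    change Continuous fun g => LinearMap.det (B.ρ g)
    rw [h1]
    refine Continuous.matrix_det (continuous_matrix fun i j => ?_)
    simp only [LinearMap.toMatrix_apply]
    exact continuous_coord B _ _

/-- `A` is solvable on the subgroup `S`: some term of the derived series of `S` acts trivially. -/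
def ActsSolvably (A : CRep E G) (S : Subgroup G) : Prop :=
  ∃ n, ∀ g ∈ (derivedSeries S n).map S.subtype, A.ρ g = 1

/-- Each continuous character of an open subgroup of `G` has a power which is trivial on `K`. -/
def CharactersFinite (E : Type) [Field E] [TopologicalSpace E] (K : Subgroup G) : Prop :=
  ∀ (U : Subgroup G), IsOpen (U : Set G) → ∀ δ : CChar E U, ∃ n, 0 < n ∧
    ∀ h : U, (h : G) ∈ K → δ.χ h ^ n = 1

end

section

variable {E : Type} [Field E] [TopologicalSpace E] [IsTopologicalRing E] [T1Space E]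
  [IsAlgClosed E] {G : Type} [Group G] [TopologicalSpace G] [IsTopologicalGroup G] [CompactSpace G]
  [TotallyDisconnectedSpace G]

omit [T1Space E] [IsAlgClosed E] [CompactSpace G] [TotallyDisconnectedSpace G]
  [IsTopologicalGroup G] [TopologicalSpace E] [IsTopologicalRing E] [TopologicalSpace G] [Group G] in
theorem map_subtype_finrank {V : Type} [AddCommGroup V] [Module E V] [FiniteDimensional E V]
    (N : Submodule E V) (W : Submodule E N) : finrank E (W.map N.subtype) = finrank E W :=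
  (Submodule.equivMapOfInjective N.subtype N.injective_subtype W).finrank_eq.symm

theorem eigenspace_stable {E V : Type} [Field E] [AddCommGroup V] [Module E V] (T R : End E V)
    (c : E) (h : T * R = R * T) (w : V) (hw : w ∈ T.eigenspace c) : R w ∈ T.eigenspace c := by
  have e3 := congrArg (fun Q : End E V => Q w) h
  simp only [Module.End.mul_apply] at e3
  rw [Module.End.mem_eigenspace_iff] at hw ⊢
  rw [e3, hw, map_smul]

theorem isScalar_of_eigenspace {E V : Type} [Field E] [AddCommGroup V] [Module E V]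
    (T : End E V) (c : E) (h : T.eigenspace c = ⊤) : IsScalar T := by
  refine ⟨c, LinearMap.ext fun x => ?_⟩
  have h3 : x ∈ T.eigenspace c := h ▸ Submodule.mem_top
  exact Module.End.mem_eigenspace_iff.mp h3

/-- A common eigenvector of `U ∩ K` for a suitable open subgroup `U`. -/
theorem exists_eigenvector (A : CRep E G) (hA : Nontrivial A.V) (K U₀ : Subgroup G)
    (hU₀ : IsOpen (U₀ : Set G)) (hsolv : ActsSolvably A (U₀ ⊓ K)) :
    ∃ U : Subgroup G, IsOpen (U : Set G) ∧ ∃ v : A.V, v ≠ 0 ∧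
      ∀ h ∈ U ⊓ K, ∃ c : E, A.ρ h v = c • v := by
  classical
  let P : ℕ → Prop := fun d => ∃ U : Subgroup G, IsOpen (U : Set G) ∧
    ∃ N : Submodule E A.V, N ≠ ⊥ ∧ (∀ g ∈ U ⊓ K, ∀ v ∈ N, A.ρ g v ∈ N) ∧ finrank E N = d
  have hex : ∃ d, P d := ⟨_, ⊤, isOpen_univ, ⊤, top_ne_bot, fun _ _ _ _ => trivial, rfl⟩
  obtain ⟨U, hU, N, hN0, hN, hd⟩ := Nat.find_spec hex
  have hmin : ∀ d', P d' → Nat.find hex ≤ d' := fun d' h => Nat.find_min' hex h
  have hminN : ∀ (W : Submodule E N) (U' : Subgroup G), IsOpen (U' : Set G) → W ≠ ⊥ →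
      (∀ g ∈ U' ⊓ K, ∀ v ∈ W.map N.subtype, A.ρ g v ∈ W.map N.subtype) → W = ⊤ := by
    intro W U' hU' hW0 hW
    have h1 : W.map N.subtype ≠ ⊥ := by
      intro h
      refine hW0 (eq_bot_iff.mpr fun x hx => ?_)
      have h3 : N.subtype x ∈ W.map N.subtype := ⟨x, hx, rfl⟩
      rw [h, Submodule.mem_bot] at h3
      exact (Submodule.mem_bot E).mpr (Subtype.ext h3)
    have h2 := hmin _ ⟨U', hU', W.map N.subtype, h1, hW, rfl⟩
    rw [map_subtype_finrank, ← hd] at h2
    exact Submodule.eq_top_of_finrank_eq (le_antisymm (Submodule.finrank_le W) h2)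
  by_cases h1 : finrank E N = 1
  · obtain ⟨v, hv, hv0⟩ := Submodule.exists_mem_ne_zero_of_ne_bot hN0
    refine ⟨U, hU, v, hv0, fun h hh => ?_⟩
    have h2 := (finrank_eq_one_iff_of_nonzero' (⟨v, hv⟩ : N)
      (fun h => hv0 (congrArg Subtype.val h))).mp h1 ⟨A.ρ h v, hN h hh v hv⟩
    obtain ⟨c, hc⟩ := h2
    exact ⟨c, (congrArg Subtype.val hc).symm⟩
  · exfalso
    let S : Subgroup G := (U ⊓ U₀) ⊓ K
    have hSU : ∀ g ∈ S, g ∈ U ⊓ K := fun g hg => ⟨hg.1.1, hg.2⟩
    have hSU₀ : S ≤ U₀ ⊓ K := fun g hg => ⟨hg.1.2, hg.2⟩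
    let B : CRep E S := (A.comap S.subtype continuous_subtype_val).sub N
      (fun g v hv => hN g (hSU g g.2) v hv)
    have hNn : Nontrivial N := Submodule.nontrivial_iff_ne_bot.mpr hN0
    have : Nontrivial B.V := hNn
    have hUU : IsOpen ((U ⊓ U₀ : Subgroup G) : Set G) := hU.inter hU₀
    have hirr : ∀ W : Submodule E B.V, (∀ h, ∀ w ∈ W, B.ρ h w ∈ W) → W = ⊥ ∨ W = ⊤ := by
      intro W hW
      by_cases hW0 : W = ⊥
      · exact Or.inl hW0
      · refine Or.inr (hminN W (U ⊓ U₀) hUU hW0 ?_)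
        rintro g hg _ ⟨w, hw, rfl⟩
        exact ⟨B.ρ ⟨g, hg⟩ w, hW ⟨g, hg⟩ w hw, rfl⟩
    obtain ⟨n, hn⟩ := hsolv
    have hder : ∀ g ∈ derivedSeries S n, B.ρ g = 1 := by
      intro g hg
      have h2 : (g : G) ∈ (derivedSeries (U₀ ⊓ K : Subgroup G) n).map
          (U₀ ⊓ K : Subgroup G).subtype :=
        ⟨Subgroup.inclusion hSU₀ g,
          map_derivedSeries_le_derivedSeries (Subgroup.inclusion hSU₀) n ⟨g, hg, rfl⟩, rfl⟩
      refine LinearMap.ext fun x => Subtype.ext ?_
      change A.ρ g.1 x.1 = x.1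
      rw [hn _ h2]
      rfl
    obtain ⟨T, hT, hfin⟩ := exists_finite_orbit B.ρ hirr h1 n hder
    have hev := eventually_eq_of_finite (fun h : S => B.ρ h * T * B.ρ h⁻¹)
      (fun F : Module.Dual E (B.V →ₗ[E] B.V) => fun m => F m)
      (fun F => continuous_linHom B B T F)
      (fun m m' h => by
        rw [← sub_eq_zero, ← Module.forall_dual_apply_eq_zero_iff E]
        intro φ
        rw [map_sub, h φ, sub_self]) hfin 1
    obtain ⟨U', hU', -, hU'T⟩ := exists_open_normal (eventually_subgroup S hev)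
    obtain ⟨c, hc⟩ := Module.End.exists_eigenvalue T
    have hstab : ∀ g ∈ ((U' ⊓ (U ⊓ U₀)) ⊓ K : Subgroup G), ∀ v ∈ (T.eigenspace c).map N.subtype,
        A.ρ g v ∈ (T.eigenspace c).map N.subtype := by
      rintro g ⟨⟨hg1, hg2⟩, hg3⟩ _ ⟨w, hw, rfl⟩
      let gS : S := ⟨g, hg2, hg3⟩
      refine ⟨B.ρ gS w, ?_, rfl⟩
      have e1 : B.ρ gS * T * B.ρ gS⁻¹ = T := by
        have := hU'T g hg1 gS.2
        change B.ρ gS * T * B.ρ gS⁻¹ = B.ρ 1 * T * B.ρ 1⁻¹ at this
        rw [this, inv_one, map_one, one_mul, mul_one]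
      have e2 : T * B.ρ gS = B.ρ gS * T := by
        conv_lhs => rw [← e1]
        rw [mul_assoc, rho_inv_mul, mul_one]
      exact eigenspace_stable T (B.ρ gS) c e2 w hw
    have htop := hminN (T.eigenspace c) _ (hU'.inter hUU) hc hstab
    exact hT (isScalar_of_eigenspace T c htop)

omit [T1Space E] [IsAlgClosed E] [CompactSpace G] [TotallyDisconnectedSpace G] in
theorem coeff_continuous (A : CRep E G) (v : A.V) (f : Module.Dual E A.V) (g h : G) :
    Continuous fun u : G => f (A.ρ (g⁻¹ * (u⁻¹ * h * u) * g) v) := by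
  have h1 : Continuous fun u : G => g⁻¹ * (u⁻¹ * h * u) * g := by fun_prop
  exact (A.cont v f).comp h1

/-- Let `v` be a common eigenvector of `U ∩ K`. Each translate of `v` is fixed by `U' ∩ K` for an
open subgroup `U'`. -/
theorem translate_fixed (A : CRep E G) (K : Subgroup G) [K.Normal]
    (hfin : CharactersFinite E K) (U : Subgroup G) (hU : IsOpen (U : Set G)) (v : A.V) (hv0 : v ≠ 0)
    (hv : ∀ h ∈ U ⊓ K, ∃ c : E, A.ρ h v = c • v) (g : G) :
    ∀ᶠ h in 𝓝 (1 : G), h ∈ K → A.ρ h (A.ρ g v) = A.ρ g v := by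
  classical
  obtain ⟨f, hf⟩ : ∃ f : Module.Dual E A.V, f v = 1 := by
    obtain ⟨f, hf⟩ : ∃ f : Module.Dual E A.V, f v ≠ 0 := by
      by_contra hcon
      push Not at hcon
      exact hv0 ((Module.forall_dual_apply_eq_zero_iff E v).mp hcon)
    refine ⟨(f v)⁻¹ • f, ?_⟩
    rw [LinearMap.smul_apply, smul_eq_mul, inv_mul_cancel₀ hf]
  let c : G → E := fun h => f (A.ρ h v)
  have hc : ∀ h ∈ U ⊓ K, A.ρ h v = c h • v := by
    intro h hh
    obtain ⟨a, ha⟩ := hv h hh
    have : c h = a := by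
      change f (A.ρ h v) = a
      rw [ha, map_smul, hf, smul_eq_mul, mul_one]
    rw [this, ha]
  obtain ⟨U₁, hU₁, hU₁n, hU₁U⟩ := exists_open_normal (eventually_mem hU)
  have hconj : ∀ g h : G, h ∈ U₁ ⊓ K → g⁻¹ * h * g ∈ U ⊓ K := by
    intro g h hh
    have e1 := hU₁n.conj_mem h hh.1 g⁻¹
    have e2 := (inferInstance : K.Normal).conj_mem h hh.2 g⁻¹
    rw [inv_inv] at e1 e2
    exact ⟨hU₁U _ e1, e2⟩
  have hw : ∀ g h : G, h ∈ U₁ ⊓ K → A.ρ h (A.ρ g v) = c (g⁻¹ * h * g) • A.ρ g v := by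
    intro g h hh
    rw [← map_smul, ← hc _ (hconj g h hh), ← Module.End.mul_apply, ← Module.End.mul_apply,
      ← map_mul, ← map_mul]
    congr 2
    group
  have hρ0 : ∀ (g : G) (x : A.V), A.ρ g x = 0 → x = 0 := by
    intro g x hx
    have := congrArg (fun T : End E A.V => T x) (rho_inv_mul A.ρ g)
    simp only [Module.End.mul_apply, Module.End.one_apply] at this
    rw [← this, hx, map_zero]
  have hgv0 : ∀ g : G, A.ρ g v ≠ 0 := fun g h => hv0 (hρ0 g v h)
  -- the weights
  let H₁ : Subgroup G := U₁ ⊓ K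
  let w : G → (H₁ →* E) := fun g =>
    { toFun := fun h => c (g⁻¹ * h * g)
      map_one' := by
        change c (g⁻¹ * 1 * g) = 1
        rw [mul_one, inv_mul_cancel]
        change f (A.ρ 1 v) = 1
        rw [map_one, Module.End.one_apply, hf]
      map_mul' := fun h h' => by
        refine smul_left_injective E (hgv0 g) ?_
        change c (g⁻¹ * (h * h' : H₁) * g) • A.ρ g v =
          (c (g⁻¹ * h * g) * c (g⁻¹ * h' * g)) • A.ρ g v
        rw [← hw g _ (h * h').2, Subgroup.coe_mul, map_mul, Module.End.mul_apply,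
          hw g _ h'.2, map_smul, hw g _ h.2, smul_smul, mul_comm] }
  have hwfin : (Set.range w).Finite := by
    let Ψ : Set (H₁ →* E) := Set.range w
    choose g₀ hg₀ using fun x : Ψ => x.2
    have hlin : LinearIndependent E (fun x : Ψ => A.ρ (g₀ x) v) := by
      refine linearIndependent_of_characters (fun h : H₁ => A.ρ h.1) Ψ _
        (fun x => hgv0 _) fun h x => ?_
      rw [hw (g₀ x) h.1 h.2]
      congr 1
      exact congrArg (fun χ : H₁ →* E => χ h) (hg₀ x)
    exact hlin.finite_of_isNoetherian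
  have hev : ∀ᶠ u in 𝓝 (1 : G), w (u * g) = w g := by
    have h1 := eventually_eq_of_finite (fun u : G => w (u * g))
      (fun h : H₁ => fun χ : H₁ →* E => χ h)
      (fun h => by
        have e := coeff_continuous A v f g h.1
        refine e.congr fun u => ?_
        change f (A.ρ _ v) = f (A.ρ _ v)
        congr 3
        group)
      (fun m m' h => MonoidHom.ext h)
      (hwfin.subset (by rintro _ ⟨u, rfl⟩; exact ⟨_, rfl⟩)) 1
    simpa only [one_mul] using h1
  obtain ⟨U₂, hU₂, -, hU₂p⟩ := exists_open_normal (hev.and (eventually_mem hU₁))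
  -- the weight space
  let W : Submodule E A.V :=
    { carrier := {x | ∀ h : H₁, A.ρ h.1 x = w g h • x}
      zero_mem' := fun h => by rw [map_zero, smul_zero]
      add_mem' := fun {x y} hx hy h => by rw [map_add, hx h, hy h, smul_add]
      smul_mem' := fun a x hx h => by rw [map_smul, hx h, smul_comm] }
  have hgW : A.ρ g v ∈ W := fun h => hw g h.1 h.2
  have hWst : ∀ (u : U₂), ∀ x ∈ W, A.ρ u.1 x ∈ W := by
    intro u x hx h
    have e0 : u.1⁻¹ * h.1 * u.1 ∈ H₁ := by
      have e1 := hU₁n.conj_mem h h.2.1 u.1⁻¹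
      have e2 := (inferInstance : K.Normal).conj_mem h h.2.2 u.1⁻¹
      rw [inv_inv] at e1 e2
      exact ⟨e1, e2⟩
    have e1 : A.ρ h.1 (A.ρ u.1 x) = A.ρ u.1 (A.ρ (u.1⁻¹ * h.1 * u.1) x) := by
      rw [← Module.End.mul_apply, ← Module.End.mul_apply, ← map_mul, ← map_mul]
      congr 2
      group
    have e2 : w g ⟨u.1⁻¹ * h.1 * u.1, e0⟩ = w (u.1 * g) h := by
      change c _ = c _
      congr 1
      group
    rw [e1, hx ⟨_, e0⟩, map_smul, e2, (hU₂p u.1 u.2).1]
  let B : CRep E U₂ := (A.comap U₂.subtype continuous_subtype_val).sub W hWst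
  obtain ⟨n, hn, hδ⟩ := hfin U₂ hU₂ (detChar B)
  have hm : 0 < finrank E W := by
    have : Nontrivial W := ⟨⟨A.ρ g v, hgW⟩, 0, fun h => hgv0 g (congrArg Subtype.val h)⟩
    exact finrank_pos
  have hroot : ∀ h : H₁, h.1 ∈ U₂ → w g h ^ (finrank E W * n) = 1 := by
    intro h hh
    have e1 := hδ ⟨h.1, hh⟩ h.2.2
    have e2 : B.ρ ⟨h.1, hh⟩ = w g h • (1 : W →ₗ[E] W) := by
      refine LinearMap.ext fun x => Subtype.ext ?_
      exact x.2 h
    have e3 : LinearMap.det (w g h • (1 : W →ₗ[E] W)) = w g h ^ finrank E W := by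
      rw [LinearMap.det_smul, map_one, mul_one]
    have e4 : (detChar B).χ ⟨h.1, hh⟩ = w g h ^ finrank E W := by
      rw [← e3]
      exact congrArg LinearMap.det e2
    rw [e4, ← pow_mul] at e1
    exact e1
  let S : Subgroup G := U₂ ⊓ K
  have hSH : ∀ h ∈ S, h ∈ H₁ := fun h hh => ⟨(hU₂p h hh.1).2, hh.2⟩
  have hMN : 0 < finrank E W * n := Nat.mul_pos hm hn
  have hfinS : (Set.range fun h : S => c (g⁻¹ * h.1 * g)).Finite := by
    refine ((Polynomial.nthRoots (finrank E W * n) (1 : E)).toFinset.finite_toSet).subset ?_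
    rintro _ ⟨h, rfl⟩
    simp only [Finset.mem_coe, Multiset.mem_toFinset]
    exact (Polynomial.mem_nthRoots hMN).mpr (hroot ⟨h.1, hSH h.1 h.2⟩ h.2.1)
  have hev2 := eventually_eq_of_finite (fun h : S => c (g⁻¹ * h.1 * g))
    (fun _ : Unit => fun x : E => x)
    (fun _ => by
      have h1 : Continuous fun h : S => g⁻¹ * h.1 * g := by fun_prop
      exact (A.cont v f).comp h1) (fun m m' h => h ()) hfinS 1
  filter_upwards [eventually_subgroup S hev2, eventually_mem hU₂] with h h1 h2 hK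
  have h3 := h1 ⟨h2, hK⟩
  rw [hw g h (hSH h ⟨h2, hK⟩)]
  have h4 : c (g⁻¹ * h * g) = 1 := by
    rw [h3]
    change c (g⁻¹ * 1 * g) = 1
    rw [mul_one, inv_mul_cancel]
    change f (A.ρ 1 v) = 1
    rw [map_one, Module.End.one_apply, hf]
  rw [h4, one_smul]

/-- The core statement: an irreducible representation which is virtually solvable on `K` is trivial
on `U ∩ K` for an open subgroup `U`. -/
theorem exists_trivial (A : CRep E G) (hA : Irr A) (K : Subgroup G) [K.Normal]
    (hfin : CharactersFinite E K) (U₀ : Subgroup G)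
    (hU₀ : IsOpen (U₀ : Set G)) (hsolv : ActsSolvably A (U₀ ⊓ K)) :
    ∃ U : Subgroup G, IsOpen (U : Set G) ∧ U.Normal ∧ ∀ h ∈ U ⊓ K, A.ρ h = 1 := by
  classical
  obtain ⟨U, hU, v, hv0, hv⟩ := exists_eigenvector A hA.1 K U₀ hU₀ hsolv
  have hfix := translate_fixed A K hfin U hU v hv0 hv
  have h2 : Submodule.span E (Set.range fun g : G => A.ρ g v) = ⊤ := by
    refine (hA.2 _ ?_).resolve_left ?_
    · intro h w hw
      change A.ρ h w ∈ _
      induction hw using Submodule.span_induction with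
      | mem x hx =>
        obtain ⟨g, rfl⟩ := hx
        refine Submodule.subset_span ⟨h * g, ?_⟩
        simp only [map_mul, Module.End.mul_apply]
      | zero => rw [map_zero]; exact Submodule.zero_mem _
      | add x y _ _ hx hy => rw [map_add]; exact Submodule.add_mem _ hx hy
      | smul a x _ hx => rw [map_smul]; exact Submodule.smul_mem _ _ hx
    · intro h
      have h3 : v ∈ Submodule.span E (Set.range fun g : G => A.ρ g v) :=
        Submodule.subset_span ⟨1, by simp⟩
      rw [h] at h3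
      exact hv0 ((Submodule.mem_bot E).mp h3)
  obtain ⟨S, hS, hspan⟩ := Submodule.fg_span_iff_fg_span_finset_subset _ |>.mp
    (h2 ▸ (Module.finite_def.mp (inferInstance : Module.Finite E A.V)))
  have hev : ∀ᶠ h in 𝓝 (1 : G), ∀ s ∈ S, h ∈ K → A.ρ h s = s := by
    rw [Filter.eventually_all_finset]
    intro s hs
    obtain ⟨g, rfl⟩ := hS hs
    exact hfix g
  obtain ⟨U', hU', hn, hU'p⟩ := exists_open_normal hev
  refine ⟨U', hU', hn, fun h hh => ?_⟩
  refine LinearMap.ext_on (hspan ▸ h2) fun s hs => ?_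
  exact hU'p h hh.1 s hs hh.2

end

end Pool.Agent.X300.GO
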