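import Pool.Agent.X300.GO.Frame

/-!
# The minimal piece extends to an open subgroup, up to a character of finite order
-/

namespace Pool.Agent.X300.GO

open Module Topology Filter
open Pool.Agent.X307.LO

variable {E : Type} [Field E] [TopologicalSpace E] [IsTopologicalRing E] [T1Space E]
  {G : Type} [Group G] [TopologicalSpace G] [IsTopologicalGroup G] [CompactSpace G]
  [TotallyDisconnectedSpace G]

omit [T1Space E] [IsTopologicalGroup G] [CompactSpace G] [TotallyDisconnectedSpace G]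
  [IsTopologicalRing E] in
/-- Schur's lemma. -/
theorem IsMin.schur [IsAlgClosed E] {A : CRep E G} {H : Subgroup G} {N : Submodule E A.V}
    (h : IsMin A H N) (Q : N →ₗ[E] N)
    (hQ : ∀ k (hk : k ∈ H) (n : N), (Q ⟨A.ρ k n, h.stable k hk n n.2⟩ : A.V) = A.ρ k (Q n)) :
    ∃ c : E, Q = c • (1 : N →ₗ[E] N) := by
  have hNn : Nontrivial N := Submodule.nontrivial_iff_ne_bot.mpr h.ne_bot
  obtain ⟨c, hc⟩ := Module.End.exists_eigenvalue Q
  have hW : (Module.End.eigenspace Q c).map N.subtype = N := by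
    refine h.min _ (Submodule.map_subtype_le _ _) ?_ ?_
    · intro hb
      refine hc (eq_bot_iff.mpr fun x hx => ?_)
      have h3 : N.subtype x ∈ (Module.End.eigenspace Q c).map N.subtype := ⟨x, hx, rfl⟩
      rw [hb, Submodule.mem_bot] at h3
      exact (Submodule.mem_bot E).mpr (Subtype.ext h3)
    · rintro g hg _ ⟨w, hw, rfl⟩
      refine ⟨⟨A.ρ g w, h.stable g hg w w.2⟩, ?_, rfl⟩
      have hw' : Q w = c • w := Module.End.mem_eigenspace_iff.mp hw
      refine Module.End.mem_eigenspace_iff.mpr (Subtype.ext ?_)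
      rw [hQ g hg w, hw']
      change A.ρ g (c • w.1) = c • A.ρ g w.1
      rw [map_smul]
  refine ⟨c, LinearMap.ext fun x => ?_⟩
  have hx : x.1 ∈ (Module.End.eigenspace Q c).map N.subtype := by
    rw [hW]
    exact x.2
  obtain ⟨y, hy, hyx⟩ := hx
  have : y = x := Subtype.ext hyx
  rw [← this]
  exact Module.End.mem_eigenspace_iff.mp hy

/-- The compression of `A.ρ u` to `N`. -/
def compress {A : CRep E G} {N : Submodule E A.V} (p : A.V →ₗ[E] N) (u : G) : N →ₗ[E] N :=
  p ∘ₗ A.ρ u ∘ₗ N.subtype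

omit [T1Space E] [IsTopologicalGroup G] [CompactSpace G] [TotallyDisconnectedSpace G]
  [IsTopologicalRing E] in
theorem compress_continuous {A : CRep E G} {N : Submodule E A.V} (p : A.V →ₗ[E] N) (n : N)
    (f : Module.Dual E N) : Continuous fun u => f (compress p u n) :=
  A.cont n.1 (f ∘ₗ p)

omit [T1Space E] [IsTopologicalGroup G] [CompactSpace G] [TotallyDisconnectedSpace G] in
theorem compress_det_continuous {A : CRep E G} {N : Submodule E A.V} (p : A.V →ₗ[E] N) :
    Continuous fun u => LinearMap.det (compress p u) := by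
  have h1 : (fun u => LinearMap.det (compress p u)) = fun u =>
      (LinearMap.toMatrix (finBasis E N) (finBasis E N) (compress p u)).det := by
    funext u
    rw [LinearMap.det_toMatrix]
  rw [h1]
  refine Continuous.matrix_det (continuous_matrix fun i j => ?_)
  simp only [LinearMap.toMatrix_apply]
  exact compress_continuous p _ ((finBasis E N).coord i)

omit [T1Space E] [IsTopologicalGroup G] [CompactSpace G] [TotallyDisconnectedSpace G] in
theorem compress_prod_continuous {A : CRep E G} {N : Submodule E A.V} (p : A.V →ₗ[E] N) (n : N)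
    (f : Module.Dual E N) :
    Continuous fun q : G × G => f (compress p q.1 (compress p q.2 n)) := by
  have h1 : (fun q : G × G => f (compress p q.1 (compress p q.2 n))) = fun q =>
      ∑ j, (finBasis E N).repr (compress p q.2 n) j * f (compress p q.1 (finBasis E N j)) := by
    funext q
    conv_lhs => rw [← (finBasis E N).sum_repr (compress p q.2 n)]
    rw [map_sum, map_sum]
    refine Finset.sum_congr rfl fun j _ => ?_
    rw [map_smul, map_smul, smul_eq_mul]
  rw [h1]
  exact continuous_finsetSum _ fun j _ =>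
    ((compress_continuous p n ((finBasis E N).coord j)).comp continuous_snd).mul
      ((compress_continuous p _ f).comp continuous_fst)

/-- A representation of an open subgroup which extends the piece `N`, up to scalars. -/
theorem exists_extension [ContinuousInv₀ E] [IsAlgClosed E] (hroot : RootNearOne E)
    (A : CRep E G) (hA : Irr A) (K : Subgroup G) [hK : K.Normal] :
    ∃ U : Subgroup G, IsOpen (U : Set G) ∧ ∃ (R : CRep E U) (ι : R.V →ₗ[E] A.V)
      (p : A.V →ₗ[E] R.V), (∀ x, p (ι x) = x) ∧ Nontrivial R.V ∧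
      (∀ u, LinearMap.det (R.ρ u) = 1) ∧ finrank E R.V ∣ finrank E A.V ∧
      (∀ h : U, (h : G) ∈ K → ∃ a : E, (∀ x, A.ρ h (ι x) = a • ι (R.ρ h x)) ∧
        ∀ v, p (A.ρ h v) = a • R.ρ h (p v)) ∧
      ∀ U' : Subgroup G, IsOpen (U' : Set G) → ∀ W : Submodule E R.V,
        (∀ h : U, (h : G) ∈ U' ⊓ K → ∀ x ∈ W, R.ρ h x ∈ W) → W = ⊥ ∨ W = ⊤ := by
  classical
  obtain ⟨U₁, hU₁, hU₁n, N, hN⟩ := exists_minimal A hA.1 K
  have h0 : IsMin A (U₁ ⊓ K) N := by
    have := hN U₁ hU₁
    rwa [inf_idem] at this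
  have hHn : (U₁ ⊓ K).Normal := inferInstance
  obtain ⟨p, hp, hpH⟩ := exists_projection hA h0
  have hNn : Nontrivial N := Submodule.nontrivial_iff_ne_bot.mpr h0.ne_bot
  have hd : 0 < finrank E N := finrank_pos
  obtain ⟨r, hr, hr1, hrc⟩ := hroot (finrank E N) hd
  let T : G → N →ₗ[E] N := fun u => compress p u
  have hT1 : T 1 = 1 := by
    refine LinearMap.ext fun n => ?_
    change p (A.ρ 1 n.1) = n
    rw [map_one, Module.End.one_apply, hp]
  -- the intertwining property
  have hTk : ∀ u k, ∀ hk : k ∈ U₁ ⊓ K, ∀ n : N,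
      (T u ⟨A.ρ k n, h0.stable k hk n n.2⟩ : A.V) = A.ρ (u * k * u⁻¹) (T u n) := by
    intro u k hk n
    have h1 : u * k * u⁻¹ ∈ U₁ ⊓ K := hHn.conj_mem k hk u
    change (p (A.ρ u (A.ρ k n)) : A.V) = A.ρ (u * k * u⁻¹) ((p (A.ρ u n) : N) : A.V)
    rw [← hpH _ h1]
    congr 2
    rw [← Module.End.mul_apply, ← Module.End.mul_apply, ← map_mul, ← map_mul]
    congr 2
    group
  let D : G → E := fun u => LinearMap.det (T u)
  have hDc : Continuous D := compress_det_continuous p
  have hD1 : D 1 = 1 := by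
    change LinearMap.det (T 1) = 1
    rw [hT1, map_one]
  let s : G → E := fun u => r (D u)
  have hs1 : s 1 = 1 := by
    change r (D 1) = 1
    rw [hD1, hr1]
  have hsd : ∀ u, s u ^ finrank E N = D u := fun u => hr _
  have hsc : ContinuousAt s 1 := by
    have h1 : ContinuousAt r (D 1) := by
      rw [hD1]
      exact hrc
    exact ContinuousAt.comp h1 hDc.continuousAt
  have hD0 : ∀ᶠ u in 𝓝 (1 : G), D u ≠ 0 := by
    refine hDc.continuousAt.eventually_ne ?_
    rw [hD1]
    exact one_ne_zero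
  obtain ⟨x₀, hx₀⟩ := exists_ne (0 : N)
  obtain ⟨f, hf⟩ : ∃ f : Module.Dual E N, f x₀ ≠ 0 := by
    by_contra hcon
    push Not at hcon
    exact hx₀ ((Module.forall_dual_apply_eq_zero_iff E x₀).mp hcon)
  let F : G × G → E := fun q => (s q.1)⁻¹ * (s q.2)⁻¹ * s (q.1 * q.2) *
    (f (T q.1 (T q.2 x₀)) / f (T (q.1 * q.2) x₀))
  have hmulc : Continuous fun q : G × G => q.1 * q.2 := continuous_mul
  have hFc : ContinuousAt F (1, 1) := by
    have e1 : ContinuousAt (fun q : G × G => s q.1) (1, 1) :=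
      ContinuousAt.comp (f := fun q : G × G => q.1) (x := ((1 : G), (1 : G))) hsc
        continuous_fst.continuousAt
    have e2 : ContinuousAt (fun q : G × G => s q.2) (1, 1) :=
      ContinuousAt.comp (f := fun q : G × G => q.2) (x := ((1 : G), (1 : G))) hsc
        continuous_snd.continuousAt
    have e3 : ContinuousAt (fun q : G × G => s (q.1 * q.2)) (1, 1) := by
      have h1 : ContinuousAt s ((1 : G) * 1) := by
        rw [mul_one]
        exact hsc
      exact ContinuousAt.comp (g := s) (f := fun q : G × G => q.1 * q.2)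
        (x := ((1 : G), (1 : G))) h1 hmulc.continuousAt
    have e4 : ContinuousAt (fun q : G × G => f (T (q.1 * q.2) x₀)) (1, 1) :=
      ((compress_continuous p x₀ f).comp hmulc).continuousAt
    have e5 : ContinuousAt (fun q : G × G => f (T q.1 (T q.2 x₀))) (1, 1) :=
      (compress_prod_continuous p x₀ f).continuousAt
    refine (((e1.inv₀ ?_).mul (e2.inv₀ ?_)).mul e3).mul (e5.div e4 ?_)
    · change s 1 ≠ 0
      rw [hs1]
      exact one_ne_zero
    · change s 1 ≠ 0
      rw [hs1]
      exact one_ne_zero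
    · change f (T (1 * 1) x₀) ≠ 0
      rw [mul_one, hT1]
      exact hf
  have hF1 : F (1, 1) = 1 := by
    change (s 1)⁻¹ * (s 1)⁻¹ * s (1 * 1) * (f (T 1 (T 1 x₀)) / f (T (1 * 1) x₀)) = 1
    rw [mul_one (1 : G), hs1, hT1]
    change (1 : E)⁻¹ * 1⁻¹ * 1 * (f x₀ / f x₀) = 1
    rw [div_self hf]
    simp
  have hclosed : IsClosed {x : E | x ^ finrank E N = 1 ∧ x ≠ 1} := by
    have hfin : {x : E | x ^ finrank E N = 1 ∧ x ≠ 1}.Finite := by
      refine ((Polynomial.nthRoots (finrank E N) (1 : E)).toFinset.finite_toSet).subset ?_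
      intro a ha
      simp only [Finset.mem_coe, Multiset.mem_toFinset]
      exact (Polynomial.mem_nthRoots hd).mpr ha.1
    exact hfin.isClosed
  have hev1 : ∀ᶠ q in 𝓝 ((1 : G), (1 : G)), ¬ (F q ^ finrank E N = 1 ∧ F q ≠ 1) := by
    have : {x : E | x ^ finrank E N = 1 ∧ x ≠ 1}ᶜ ∈ 𝓝 (F (1, 1)) := by
      refine hclosed.isOpen_compl.mem_nhds ?_
      rw [hF1]
      exact fun h => h.2 rfl
    exact hFc this
  have hev2 : ∀ᶠ q in 𝓝 ((1 : G), (1 : G)), f (T (q.1 * q.2) x₀) ≠ 0 := by
    refine ((compress_continuous p x₀ f).comp hmulc).continuousAt.eventually_ne ?_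
    change f (T (1 * 1) x₀) ≠ 0
    rw [mul_one, hT1]
    exact hf
  have hev3 := hev1.and hev2
  rw [nhds_prod_eq, Filter.eventually_prod_iff] at hev3
  obtain ⟨pa, hpa, pb, hpb, hpab⟩ := hev3
  obtain ⟨U₃, hU₃, -, hU₃p⟩ := exists_open_normal (((hpa.and hpb).and hD0).and (eventually_mem hU₁))
  have hs0 : ∀ u ∈ U₃, s u ≠ 0 := by
    intro u hu h
    have := hsd u
    rw [h, zero_pow hd.ne'] at this
    exact (hU₃p u hu).1.2 this.symm
  -- the cocycle
  have hcoc : ∀ u ∈ U₃, ∀ v ∈ U₃, ∃ c : E, T u * T v = c • T (u * v) := by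
    intro u hu v hv
    have huv : D (u * v) ≠ 0 := (hU₃p _ (U₃.mul_mem hu hv)).1.2
    have hunit : IsUnit (T (u * v)) := by
      rw [LinearMap.isUnit_iff_isUnit_det]
      exact isUnit_iff_ne_zero.mpr huv
    obtain ⟨X, hX⟩ := hunit
    have hXinv : ∀ k (hk : k ∈ U₁ ⊓ K) (m : N),
        (X⁻¹.val ⟨A.ρ (u * v * k * (u * v)⁻¹) m, h0.stable _ (hHn.conj_mem k hk _) m m.2⟩ : A.V) =
          A.ρ k (X⁻¹.val m) := by
      intro k hk m
      have h1 := hTk (u * v) k hk (X⁻¹.val m)
      have h2 : T (u * v) (X⁻¹.val m) = m := by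
        rw [← hX, ← Module.End.mul_apply, Units.mul_inv, Module.End.one_apply]
      rw [h2] at h1
      have h3 : (⟨A.ρ (u * v * k * (u * v)⁻¹) m, h0.stable _ (hHn.conj_mem k hk _) m m.2⟩ : N) =
          T (u * v) ⟨A.ρ k (X⁻¹.val m), h0.stable k hk _ (X⁻¹.val m).2⟩ :=
        Subtype.ext h1.symm
      rw [h3, ← hX, ← Module.End.mul_apply, Units.inv_mul, Module.End.one_apply]
    obtain ⟨c, hc⟩ := h0.schur (X⁻¹.val * (T u * T v)) (by
      intro k hk n
      simp only [Module.End.mul_apply]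
      rw [← hXinv k hk]
      congr 2
      refine Subtype.ext ?_
      have h1 := hTk v k hk n
      have h2 : T v ⟨A.ρ k n, h0.stable k hk n n.2⟩ =
          ⟨A.ρ (v * k * v⁻¹) (T v n), h0.stable _ (hHn.conj_mem k hk v) _ (T v n).2⟩ :=
        Subtype.ext h1
      rw [h2, hTk u _ (hHn.conj_mem k hk v) (T v n)]
      change A.ρ (u * (v * k * v⁻¹) * u⁻¹) (T u (T v n)) = A.ρ (u * v * k * (u * v)⁻¹) (T u (T v n))
      congr 2
      group)
    refine ⟨c, ?_⟩
    have h1 : T u * T v = X.val * (X⁻¹.val * (T u * T v)) := by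
      rw [← mul_assoc, Units.mul_inv, one_mul]
    rw [h1, hc, mul_smul_comm, mul_one, hX]
  let R : G → N →ₗ[E] N := fun u => (s u)⁻¹ • T u
  have hRmul : ∀ u ∈ U₃, ∀ v ∈ U₃, R (u * v) = R u * R v := by
    intro u hu v hv
    obtain ⟨c, hc⟩ := hcoc u hu v hv
    obtain ⟨hnot, hne⟩ := hpab (hU₃p u hu).1.1.1 (hU₃p v hv).1.1.2
    have hc2 : f (T u (T v x₀)) = c * f (T (u * v) x₀) := by
      have := congrArg (fun Q : N →ₗ[E] N => f (Q x₀)) hc
      simpa only [Module.End.mul_apply, LinearMap.smul_apply, map_smul, smul_eq_mul] using this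
    have hFuv : F (u, v) = (s u)⁻¹ * (s v)⁻¹ * s (u * v) * c := by
      change (s u)⁻¹ * (s v)⁻¹ * s (u * v) * (f (T u (T v x₀)) / f (T (u * v) x₀)) = _
      rw [hc2, mul_div_assoc, div_self hne, mul_one]
    have hdet := congrArg LinearMap.det hc
    rw [map_mul, LinearMap.det_smul] at hdet
    have hdet' : D u * D v = c ^ finrank E N * D (u * v) := hdet
    have hpow : F (u, v) ^ finrank E N = 1 := by
      rw [hFuv, mul_pow, mul_pow, mul_pow, inv_pow, inv_pow, hsd, hsd, hsd]
      have e1 := (hU₃p u hu).1.2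
      have e2 := (hU₃p v hv).1.2
      field_simp
      rw [mul_comm (D (u * v)), ← hdet']
    have hone : F (u, v) = 1 := by
      by_contra hcon
      exact hnot ⟨hpow, hcon⟩
    rw [hFuv] at hone
    have e3 := hs0 _ (U₃.mul_mem hu hv)
    have e4 : (s u)⁻¹ * (s v)⁻¹ * c = (s (u * v))⁻¹ := by
      field_simp
      field_simp at hone
      rw [mul_comm]
      exact hone
    change (s (u * v))⁻¹ • T (u * v) = ((s u)⁻¹ • T u) * ((s v)⁻¹ • T v)
    rw [smul_mul_smul_comm, hc, smul_smul, e4]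
  have hR1 : R 1 = 1 := by
    change (s 1)⁻¹ • T 1 = 1
    rw [hs1, hT1, inv_one, one_smul]
  have hRc : ∀ (w : N) (f' : Module.Dual E N), ContinuousAt (fun u : G => f' (R u w)) 1 := by
    intro w f'
    have e1 : (fun u : G => f' (R u w)) = fun u => (s u)⁻¹ * f' (T u w) := by
      funext u
      change f' (((s u)⁻¹ • T u) w) = _
      rw [LinearMap.smul_apply, map_smul, smul_eq_mul]
    rw [e1]
    refine (hsc.inv₀ ?_).mul (compress_continuous p w f').continuousAt
    rw [hs1]
    exact one_ne_zero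
  let R' : CRep E U₃ :=
    { V := N
      ρ :=
        { toFun := fun u => R u
          map_one' := hR1
          map_mul' := fun u v => hRmul u u.2 v v.2 }
      cont := by
        intro w f'
        rw [continuous_iff_continuousAt]
        intro u₀
        have e1 : (fun u : U₃ => f' (R u w)) = fun u : U₃ => f' (R ((u : G) * (u₀ : G)⁻¹) (R u₀ w)) := by
          funext u
          have := hRmul ((u : G) * (u₀ : G)⁻¹) (U₃.mul_mem u.2 (U₃.inv_mem u₀.2)) u₀ u₀.2
          rw [← Module.End.mul_apply, ← this, inv_mul_cancel_right]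
        change ContinuousAt (fun u : U₃ => f' (R u w)) u₀
        rw [e1]
        have e2 : Continuous fun u : U₃ => (u : G) * (u₀ : G)⁻¹ := by fun_prop
        refine ContinuousAt.comp (g := fun g : G => f' (R g (R u₀ w))) ?_ e2.continuousAt
        rw [mul_inv_cancel]
        exact hRc _ f' }
  refine ⟨U₃, hU₃, R', N.subtype, p, hp, hNn, ?_, dvd_finrank hA h0, ?_, ?_⟩
  · intro u
    change LinearMap.det ((s u)⁻¹ • T u) = 1
    rw [LinearMap.det_smul, inv_pow, hsd]
    exact inv_mul_cancel₀ (hU₃p u u.2).1.2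
  · intro h hh
    have h1 : (h : G) ∈ U₁ ⊓ K := ⟨(hU₃p h h.2).2, hh⟩
    have key : ∀ x : N, A.ρ h x.1 = s h • ((((s h)⁻¹ • T h) x : N) : A.V) := by
      intro x
      rw [LinearMap.smul_apply, Submodule.coe_smul, smul_smul, mul_inv_cancel₀ (hs0 h h.2),
        one_smul]
      change A.ρ h x.1 = ((p (A.ρ h x.1) : N) : A.V)
      rw [hpH _ h1, hp]
    refine ⟨s h, key, fun v => Subtype.ext ?_⟩
    rw [hpH _ h1 v]
    exact key (p v)
  · intro U' hU' W hW
    have h1 := hN (U' ⊓ U₃) (hU'.inter hU₃)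
    by_cases hW0 : W = ⊥
    · exact Or.inl hW0
    right
    have h2 : Submodule.map N.subtype W = N := by
      refine h1.min _ (Submodule.map_subtype_le _ _) ?_ ?_
      · intro hb
        refine hW0 (eq_bot_iff.mpr fun x hx => ?_)
        have h3 : N.subtype x ∈ Submodule.map N.subtype W := ⟨x, hx, rfl⟩
        rw [hb, Submodule.mem_bot] at h3
        exact (Submodule.mem_bot E).mpr (Subtype.ext h3)
      · rintro g ⟨⟨⟨hg1, hg2⟩, hg3⟩, hg4⟩ _ ⟨w, hw, rfl⟩
        have h4 := hW ⟨g, hg2⟩ ⟨hg1, hg4⟩ w hw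
        have h5 : A.ρ g w.1 = s g • (R g w : A.V) := by
          change A.ρ g w.1 = s g • ((((s g)⁻¹ • T g) w : N) : A.V)
          rw [LinearMap.smul_apply, Submodule.coe_smul, smul_smul, mul_inv_cancel₀ (hs0 g hg2),
            one_smul]
          change A.ρ g w.1 = ((p (A.ρ g w.1) : N) : A.V)
          rw [hpH _ ⟨hg3, hg4⟩, hp]
        change A.ρ g w.1 ∈ _
        rw [h5]
        exact Submodule.smul_mem _ _ ⟨R g w, h4, rfl⟩
    rw [eq_top_iff]
    rintro x -
    have h3 : x.1 ∈ Submodule.map N.subtype W := by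
      rw [h2]
      exact x.2
    obtain ⟨y, hy, hyx⟩ := h3
    have h6 : y = x := Subtype.ext hyx
    exact h6 ▸ hy

end Pool.Agent.X300.GO
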