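import Mathlib

/-!
# Roots near one
-/

namespace Pool.Agent.X300.GO

/-- There are `d`-th roots which are continuous at `1`. -/
def RootNearOne (E : Type) [Field E] [TopologicalSpace E] : Prop :=
  ∀ d : ℕ, 0 < d → ∃ r : E → E, (∀ x, r x ^ d = x) ∧ r 1 = 1 ∧ ContinuousAt r 1

theorem rootNearOne (F : Type) [NormedField F] [IsAlgClosed F] : RootNearOne F := by
  intro d hd
  have key : ∀ x : F, ∃ b : F, b ^ d = x ∧ ‖1 - b‖ ^ d ≤ ‖1 - x‖ := by
    intro x
    classical
    let g : Polynomial F := Polynomial.X ^ d - Polynomial.C x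
    have hgm : g.Monic := Polynomial.monic_X_pow_sub_C x hd.ne'
    have hs : g.Splits := IsAlgClosed.splits g
    have hcard : g.roots.card = d := by
      rw [← hs.natDegree_eq_card_roots, Polynomial.natDegree_X_pow_sub_C]
    have heval : g.eval 1 = (g.roots.map (1 - ·)).prod := hs.eval_eq_prod_roots_of_monic hgm 1
    have hval : g.eval 1 = 1 - x := by simp [g]
    have hne : g.roots.toFinset.Nonempty := by
      rw [Multiset.toFinset_nonempty]
      intro h
      rw [h, Multiset.card_zero] at hcard
      exact hd.ne hcard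
    obtain ⟨b, hb, hmin⟩ := Finset.exists_min_image g.roots.toFinset (fun b => ‖1 - b‖) hne
    have hb' : b ∈ g.roots := Multiset.mem_toFinset.mp hb
    refine ⟨b, ?_, ?_⟩
    · have := (Polynomial.mem_roots'.mp hb').2
      simp only [Polynomial.IsRoot, g, Polynomial.eval_sub, Polynomial.eval_pow, Polynomial.eval_X,
        Polynomial.eval_C] at this
      exact sub_eq_zero.mp this
    · have h1 : (g.roots.map fun _ => ‖1 - b‖).prod ≤ (g.roots.map fun c => ‖1 - c‖).prod :=
        Multiset.prod_map_le_prod_map₀ _ _ (fun c _ => norm_nonneg _)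
          (fun c hc => hmin c (Multiset.mem_toFinset.mpr hc))
      have h2 : (g.roots.map fun c => ‖1 - c‖).prod = ‖(g.roots.map (1 - ·)).prod‖ := by
        exact g.roots.prod_hom' (NormedField.toMulRingNorm F) (fun c : F => 1 - c)
      rw [Multiset.map_const', Multiset.prod_replicate, hcard, h2, ← heval, hval] at h1
      exact h1
  choose r hr hn using key
  have h1 : r 1 = 1 := by
    have h := hn 1
    rw [sub_self, norm_zero] at h
    have h2 : ‖1 - r 1‖ ^ d = 0 := le_antisymm h (by positivity)
    have h3 : ‖1 - r 1‖ = 0 := pow_eq_zero_iff hd.ne' |>.mp h2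
    exact (sub_eq_zero.mp (norm_eq_zero.mp h3)).symm
  refine ⟨r, hr, h1, ?_⟩
  rw [Metric.continuousAt_iff]
  intro ε hε
  refine ⟨ε ^ d, pow_pos hε d, fun x hx => ?_⟩
  rw [h1, dist_comm, dist_eq_norm]
  rw [dist_comm, dist_eq_norm] at hx
  exact lt_of_pow_lt_pow_left₀ d hε.le ((hn x).trans_lt hx)

end Pool.Agent.X300.GO
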