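import Pool.Agent.X300.GO.Core
import Pool.Agent.X300.GO.Root

/-!
# The minimal piece of an irreducible representation on a normal subgroup
-/

namespace Pool.Agent.X300.GO

open Module Topology Filter
open Pool.Agent.X307.LO

variable {E : Type} [Field E] [TopologicalSpace E] [IsTopologicalRing E] [T1Space E]
  {G : Type} [Group G] [TopologicalSpace G] [IsTopologicalGroup G] [CompactSpace G]
  [TotallyDisconnectedSpace G]

/-- The subspace `N` is nonzero, stable under `H`, and minimal with this property. -/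
structure IsMin (A : CRep E G) (H : Subgroup G) (N : Submodule E A.V) : Prop where
  ne_bot : N ≠ ⊥
  stable : ∀ g ∈ H, ∀ v ∈ N, A.ρ g v ∈ N
  min : ∀ W ≤ N, W ≠ ⊥ → (∀ g ∈ H, ∀ v ∈ W, A.ρ g v ∈ W) → W = N

theorem exists_minimal (A : CRep E G) (hA : Nontrivial A.V) (K : Subgroup G) :
    ∃ U : Subgroup G, IsOpen (U : Set G) ∧ U.Normal ∧ ∃ N : Submodule E A.V,
      ∀ U' : Subgroup G, IsOpen (U' : Set G) → IsMin A ((U' ⊓ U) ⊓ K) N := by
  classical
  let P : ℕ → Prop := fun d => ∃ U : Subgroup G, IsOpen (U : Set G) ∧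
    ∃ N : Submodule E A.V, N ≠ ⊥ ∧ (∀ g ∈ U ⊓ K, ∀ v ∈ N, A.ρ g v ∈ N) ∧ finrank E N = d
  have hex : ∃ d, P d := ⟨_, ⊤, isOpen_univ, ⊤, top_ne_bot, fun _ _ _ _ => trivial, rfl⟩
  obtain ⟨U, hU, N, hN0, hN, hd⟩ := Nat.find_spec hex
  have hmin : ∀ d', P d' → Nat.find hex ≤ d' := fun d' h => Nat.find_min' hex h
  obtain ⟨U₁, hU₁, hU₁n, hU₁U⟩ := exists_open_normal (eventually_mem hU)
  refine ⟨U₁, hU₁, hU₁n, N, fun U' hU' => ⟨hN0, fun g hg => hN g ⟨hU₁U g hg.1.2, hg.2⟩,
    fun W hW hW0 hWs => ?_⟩⟩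
  have h2 := hmin _ ⟨U' ⊓ U₁, hU'.inter hU₁, W, hW0, hWs, rfl⟩
  rw [← hd] at h2
  exact Submodule.eq_of_le_of_finrank_le hW h2

omit [T1Space E] [IsTopologicalGroup G] [CompactSpace G] [TotallyDisconnectedSpace G]
  [IsTopologicalRing E] in
/-- The translates of `N` are minimal. -/
theorem IsMin.translate {A : CRep E G} {H : Subgroup G} [H.Normal] {N : Submodule E A.V}
    (h : IsMin A H N) (g : G) : IsMin A H (N.map (A.ρ g)) := by
  have hst : ∀ g : G, ∀ W : Submodule E A.V, (∀ h ∈ H, ∀ v ∈ W, A.ρ h v ∈ W) →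
      ∀ h ∈ H, ∀ v ∈ W.map (A.ρ g), A.ρ h v ∈ W.map (A.ρ g) := by
    rintro g W hW k hk _ ⟨w, hw, rfl⟩
    have h1 : g⁻¹ * k * g ∈ H := by
      have := (inferInstance : H.Normal).conj_mem k hk g⁻¹
      rwa [inv_inv] at this
    refine ⟨A.ρ (g⁻¹ * k * g) w, hW _ h1 w hw, ?_⟩
    rw [← Module.End.mul_apply, ← Module.End.mul_apply, ← map_mul, ← map_mul]
    congr 2
    group
  have hcancel : ∀ (g : G) (v : A.V), A.ρ g⁻¹ (A.ρ g v) = v := by
    intro g v
    rw [← Module.End.mul_apply, rho_inv_mul, Module.End.one_apply]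
  have hinv : ∀ (g : G) (W : Submodule E A.V), (W.map (A.ρ g)).map (A.ρ g⁻¹) = W := by
    intro g W
    rw [← Submodule.map_comp]
    have : (A.ρ g⁻¹) ∘ₗ (A.ρ g) = LinearMap.id := LinearMap.ext fun v => hcancel g v
    rw [this, Submodule.map_id]
  have hinv' : ∀ (g : G) (W : Submodule E A.V), (W.map (A.ρ g⁻¹)).map (A.ρ g) = W := by
    intro g W
    have := hinv g⁻¹ W
    rwa [inv_inv] at this
  refine ⟨fun hb => h.ne_bot ?_, hst g N h.stable, fun W hW hW0 hWs => ?_⟩
  · rw [← hinv g N, hb, Submodule.map_bot]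
  · have h1 : W.map (A.ρ g⁻¹) ≤ N := by
      rw [← hinv g N]
      exact Submodule.map_mono hW
    have h2 : W.map (A.ρ g⁻¹) ≠ ⊥ := by
      intro hb
      apply hW0
      rw [← hinv' g W, hb, Submodule.map_bot]
    have h3 := h.min _ h1 h2 (hst g⁻¹ W hWs)
    rw [← h3, hinv']

omit [T1Space E] [IsTopologicalGroup G] [CompactSpace G] [TotallyDisconnectedSpace G]
  [IsTopologicalRing E] in
/-- A minimal subspace is contained in a stable subspace or meets it in zero. -/
theorem IsMin.le_or_inf {A : CRep E G} {H : Subgroup G} {N : Submodule E A.V}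
    (h : IsMin A H N) (W : Submodule E A.V) (hW : ∀ g ∈ H, ∀ v ∈ W, A.ρ g v ∈ W) :
    N ≤ W ∨ N ⊓ W = ⊥ := by
  by_cases h0 : N ⊓ W = ⊥
  · exact Or.inr h0
  · have h1 := h.min (N ⊓ W) inf_le_left h0
      (fun g hg v hv => ⟨h.stable g hg v hv.1, hW g hg v hv.2⟩)
    exact Or.inl (inf_eq_left.mp h1)

omit [T1Space E] [IsTopologicalGroup G] [CompactSpace G] [TotallyDisconnectedSpace G]
  [IsTopologicalRing E] in
/-- A stable proper subspace does not contain all translates of `N`. -/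
theorem exists_translate {A : CRep E G} (hA : Irr A) {H : Subgroup G} [H.Normal]
    {N : Submodule E A.V} (h : IsMin A H N) (W : Submodule E A.V)
    (hW : ∀ g ∈ H, ∀ v ∈ W, A.ρ g v ∈ W) (htop : W ≠ ⊤) :
    ∃ g : G, (N.map (A.ρ g)) ⊓ W = ⊥ := by
  by_contra hcon
  push Not at hcon
  have h1 : ∀ g : G, N.map (A.ρ g) ≤ W := fun g =>
    ((h.translate g).le_or_inf W hW).resolve_right (hcon g)
  have h2 : (⨆ g : G, N.map (A.ρ g)) = ⊤ := by
    refine (hA.2 _ ?_).resolve_left ?_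
    · intro k v hv
      change A.ρ k v ∈ _
      have h3 : (⨆ g : G, N.map (A.ρ g)).map (A.ρ k) ≤ ⨆ g : G, N.map (A.ρ g) := by
        rw [Submodule.map_iSup]
        refine iSup_le fun g => ?_
        rw [← Submodule.map_comp]
        refine le_trans (le_of_eq ?_) (le_iSup _ (k * g))
        rw [map_mul]
        rfl
      exact h3 ⟨v, hv, rfl⟩
    · intro hb
      have h3 : N.map (A.ρ 1) ≤ ⊥ := hb ▸ le_iSup (fun g : G => N.map (A.ρ g)) 1
      exact (h.translate 1).ne_bot (le_bot_iff.mp h3)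
  exact htop (top_le_iff.mp (h2 ▸ iSup_le h1))

omit [T1Space E] [IsTopologicalGroup G] [CompactSpace G] [TotallyDisconnectedSpace G]
  [IsTopologicalRing E] in
theorem stable_sup {A : CRep E G} {H : Subgroup G} {W W' : Submodule E A.V}
    (hW : ∀ g ∈ H, ∀ v ∈ W, A.ρ g v ∈ W) (hW' : ∀ g ∈ H, ∀ v ∈ W', A.ρ g v ∈ W') :
    ∀ g ∈ H, ∀ v ∈ W ⊔ W', A.ρ g v ∈ W ⊔ W' := by
  intro g hg v hv
  obtain ⟨w, hw, w', hw', rfl⟩ := Submodule.mem_sup.mp hv
  rw [map_add]
  exact Submodule.add_mem_sup (hW g hg w hw) (hW' g hg w' hw')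

omit [T1Space E] [IsTopologicalGroup G] [CompactSpace G] [TotallyDisconnectedSpace G]
  [IsTopologicalRing E] in
/-- The dimension of `N` divides the dimension of `A`. -/
theorem dvd_finrank {A : CRep E G} (hA : Irr A) {H : Subgroup G} [H.Normal]
    {N : Submodule E A.V} (h : IsMin A H N) : finrank E N ∣ finrank E A.V := by
  classical
  let 𝒮 : Set (Submodule E A.V) := {W | (∀ g ∈ H, ∀ v ∈ W, A.ρ g v ∈ W) ∧
    finrank E N ∣ finrank E W}
  have hne : 𝒮.Nonempty := ⟨⊥, fun g _ v hv => by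
    rw [Submodule.mem_bot] at hv ⊢
    rw [hv, map_zero], by rw [finrank_bot]; exact dvd_zero _⟩
  obtain ⟨W, ⟨hWs, hWd⟩, hmax⟩ := (wellFounded_gt (α := Submodule E A.V)).has_min 𝒮 hne
  by_cases htop : W = ⊤
  · rw [htop, finrank_top] at hWd
    exact hWd
  exfalso
  obtain ⟨g, hg⟩ := exists_translate hA h W hWs htop
  have h1 : (N.map (A.ρ g)) ⊔ W ∈ 𝒮 := by
    refine ⟨stable_sup (h.translate g).stable hWs, ?_⟩
    have h2 := Submodule.finrank_sup_add_finrank_inf_eq (N.map (A.ρ g)) W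
    rw [hg, finrank_bot, add_zero] at h2
    rw [h2]
    refine dvd_add (dvd_of_eq ?_) hWd
    have hinj : Function.Injective (A.ρ g) := by
      intro x y hxy
      have := congrArg (A.ρ g⁻¹) hxy
      rwa [← Module.End.mul_apply, ← Module.End.mul_apply, rho_inv_mul, Module.End.one_apply,
        Module.End.one_apply] at this
    exact (Submodule.equivMapOfInjective (A.ρ g) hinj N).finrank_eq
  refine hmax _ h1 (lt_of_le_of_ne le_sup_right ?_)
  intro he
  have h3 : N.map (A.ρ g) ≤ W := he ▸ le_sup_left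
  exact (h.translate g).ne_bot (by rw [← hg, inf_eq_left.mpr h3])

omit [T1Space E] [IsTopologicalGroup G] [CompactSpace G] [TotallyDisconnectedSpace G]
  [IsTopologicalRing E] in
/-- There is a projection to `N` which commutes with `H`. -/
theorem exists_projection {A : CRep E G} (hA : Irr A) {H : Subgroup G} [H.Normal]
    {N : Submodule E A.V} (h : IsMin A H N) :
    ∃ p : A.V →ₗ[E] N, (∀ n : N, p n = n) ∧
      ∀ k ∈ H, ∀ v, (p (A.ρ k v) : A.V) = A.ρ k (p v) := by
  classical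
  let 𝒮 : Set (Submodule E A.V) := {W | (∀ g ∈ H, ∀ v ∈ W, A.ρ g v ∈ W) ∧ N ⊓ W = ⊥}
  have hne : 𝒮.Nonempty := ⟨⊥, fun g _ v hv => by
    rw [Submodule.mem_bot] at hv ⊢
    rw [hv, map_zero], inf_bot_eq _⟩
  obtain ⟨W, ⟨hWs, hWN⟩, hmax⟩ := (wellFounded_gt (α := Submodule E A.V)).has_min 𝒮 hne
  have htop : N ⊔ W = ⊤ := by
    by_contra htop
    obtain ⟨g, hg⟩ := exists_translate hA h (N ⊔ W) (stable_sup h.stable hWs) htop
    have h1 : (N.map (A.ρ g)) ⊔ W ∈ 𝒮 := by
      refine ⟨stable_sup (h.translate g).stable hWs, ?_⟩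
      rw [eq_bot_iff]
      rintro x ⟨hxN, hx⟩
      obtain ⟨y, hy, w, hw, rfl⟩ := Submodule.mem_sup.mp hx
      have h2 : y ∈ (N.map (A.ρ g)) ⊓ (N ⊔ W) := by
        refine ⟨hy, ?_⟩
        have : y = (y + w) - w := by abel
        rw [this]
        exact Submodule.sub_mem _ (Submodule.mem_sup_left hxN) (Submodule.mem_sup_right hw)
      rw [hg, Submodule.mem_bot] at h2
      have h3 : w ∈ N ⊓ W := by
        refine ⟨?_, hw⟩
        rw [h2, zero_add] at hxN
        exact hxN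
      rw [hWN, Submodule.mem_bot] at h3
      rw [Submodule.mem_bot, h2, h3, add_zero]
    refine hmax _ h1 (lt_of_le_of_ne le_sup_right ?_)
    intro he
    have h3 : N.map (A.ρ g) ≤ N ⊔ W := (he ▸ le_sup_left : N.map (A.ρ g) ≤ W).trans le_sup_right
    exact (h.translate g).ne_bot (by rw [← hg, inf_eq_left.mpr h3])
  have hc : IsCompl N W := ⟨disjoint_iff.mpr hWN, codisjoint_iff.mpr htop⟩
  refine ⟨N.projectionOnto W hc, fun n => Submodule.projectionOnto_apply_left hc n,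
    fun k hk v => ?_⟩
  have hv : v ∈ N ⊔ W := htop ▸ Submodule.mem_top
  obtain ⟨n, hn, w, hw, rfl⟩ := Submodule.mem_sup.mp hv
  rw [map_add, map_add, map_add,
    Submodule.projectionOnto_apply_of_mem_left hc (h.stable k hk n hn),
    Submodule.projectionOnto_apply_of_mem_right hc (hWs k hk w hw),
    Submodule.projectionOnto_apply_of_mem_left hc hn,
    Submodule.projectionOnto_apply_of_mem_right hc hw, add_zero, add_zero]

end Pool.Agent.X300.GO
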