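import Pool.Agent.X307.LO.Twist
import Pool.Agent.X300.GO.Core

/-!
# Irreducible quotients, and representations which are trivial on a kernel
-/

namespace Pool.Agent.X300.GO

open Module Topology
open Pool.Agent.X307.LO

variable {E : Type} [Field E] [TopologicalSpace E] [IsTopologicalRing E]
  {G : Type} [Group G] [TopologicalSpace G] {Q : Type} [Group Q] [TopologicalSpace Q]

theorem IsQuot.trans {A B C : CRep E G} (h₁ : IsQuot A B) (h₂ : IsQuot B C) : IsQuot A C := by
  obtain ⟨f, hf, hfe⟩ := h₁
  obtain ⟨g, hg, hge⟩ := h₂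
  exact ⟨g ∘ₗ f, hg.comp hf, fun x v => by
    rw [LinearMap.comp_apply, hfe, hge, LinearMap.comp_apply]⟩

theorem isQuot_refl (A : CRep E G) : IsQuot A A :=
  ⟨LinearMap.id, Function.surjective_id, fun _ _ => rfl⟩

/-- A nonzero representation has an irreducible quotient. -/
theorem exists_irr_quot (B : CRep E G) (hB : Nontrivial B.V) : ∃ W, Irr W ∧ IsQuot B W := by
  obtain ⟨n, hn⟩ : ∃ n, finrank E B.V = n := ⟨_, rfl⟩
  induction n using Nat.strong_induction_on generalizing B with
  | _ n ih =>
    by_cases hI : Irr B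
    · exact ⟨B, hI, isQuot_refl B⟩
    simp only [Irr, hB, true_and, not_forall, not_or] at hI
    obtain ⟨N, hN, hbot, htop⟩ := hI
    have hlt : finrank E (B.V ⧸ N) < n := by
      have h3 := Submodule.finrank_quotient_add_finrank N
      have h4 : 0 < finrank E N := by
        have : Nontrivial N := Submodule.nontrivial_iff_ne_bot.mpr hbot
        exact finrank_pos
      omega
    have hnt : Nontrivial (B.V ⧸ N) := Submodule.Quotient.nontrivial_iff.mpr htop
    obtain ⟨W, hW, hq⟩ := ih _ hlt (B.quot N hN) hnt rfl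
    exact ⟨W, hW, IsQuot.trans ⟨N.mkQ, N.mkQ_surjective, fun _ _ => rfl⟩ hq⟩

/-- A representation of `G` which is trivial on the kernel of the quotient map `β : G → Q` comes
from a representation of `Q`. -/
theorem exists_descent (W : CRep E G) (β : G →* Q) (hβ : IsQuotientMap β)
    (h : ∀ n, β n = 1 → W.ρ n = 1) : ∃ (W' : CRep E Q) (e : W'.V ≃ₗ[E] W.V),
      ∀ g v, e (W'.act (β g) v) = W.act g (e v) := by
  have hρ : ∀ g g', β g = β g' → W.ρ g = W.ρ g' := by
    intro g g' hg
    have h1 : W.ρ (g'⁻¹ * g) = 1 := h _ (by rw [map_mul, map_inv, hg, inv_mul_cancel])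
    have h2 : W.ρ g = W.ρ g' * W.ρ (g'⁻¹ * g) := by
      rw [← map_mul]
      congr 1
      group
    rw [h2, h1, mul_one]
  have hs : ∀ q, β (Function.surjInv hβ.surjective q) = q :=
    Function.surjInv_eq hβ.surjective
  let ρ' : Representation E Q W.V :=
    { toFun := fun q => W.ρ (Function.surjInv hβ.surjective q)
      map_one' := by
        rw [hρ _ 1 (by rw [hs, map_one]), map_one]
      map_mul' := fun a b => by
        rw [← map_mul]
        exact hρ _ _ (by rw [hs, map_mul, hs, hs]) }
  have hρ' : ∀ g, ρ' (β g) = W.ρ g := fun g => hρ _ _ (hs _)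
  let W' : CRep E Q :=
    { V := W.V
      ρ := ρ'
      cont := by
        intro v f
        rw [hβ.continuous_iff]
        have h1 : (fun q => f (ρ' q v)) ∘ β = fun g => f (W.ρ g v) := by
          funext g
          change f (ρ' (β g) v) = _
          rw [hρ']
        rw [h1]
        exact W.cont v f }
  refine ⟨W', LinearEquiv.refl _ _, fun g v => ?_⟩
  change ρ' (β g) v = W.ρ g v
  rw [hρ']

/-- If the pull-back by a surjective map is irreducible, so is the representation. -/
theorem Irr.of_descent {W : CRep E G} {W' : CRep E Q} (hW : Irr W) (β : G →* Q)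
    (hβ : Function.Surjective β) (e : W'.V ≃ₗ[E] W.V)
    (he : ∀ g v, e (W'.act (β g) v) = W.act g (e v)) : Irr W' := by
  have hnt := hW.1
  refine ⟨e.toEquiv.nontrivial, fun N hN => ?_⟩
  have hst : ∀ g, ∀ v ∈ N.comap e.symm.toLinearMap, W.act g v ∈ N.comap e.symm.toLinearMap := by
    intro g v hv
    rw [Submodule.mem_comap] at hv ⊢
    have h1 := he g (e.symm v)
    rw [LinearEquiv.apply_symm_apply] at h1
    change e.symm (W.act g v) ∈ N
    rw [← h1, LinearEquiv.symm_apply_apply]
    exact hN (β g) _ hv
  rcases hW.2 _ hst with h | h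
  · left
    rw [eq_bot_iff]
    intro x hx
    have h1 : e x ∈ N.comap e.symm.toLinearMap := by
      rw [Submodule.mem_comap]
      simpa using hx
    rw [h, Submodule.mem_bot] at h1
    rw [Submodule.mem_bot]
    simpa using h1
  · right
    rw [eq_top_iff]
    intro x _
    have h1 : e x ∈ N.comap e.symm.toLinearMap := h ▸ Submodule.mem_top
    rw [Submodule.mem_comap] at h1
    simpa using h1

end Pool.Agent.X300.GO
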