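import Pool.Agent.X300.GO.Ext
import Pool.Agent.X300.GO.Quot

/-!
# The minimal piece extends to an open subgroup
-/

namespace Pool.Agent.X300.GO

open Module Topology Filter
open Pool.Agent.X307.LO

variable {E : Type} [Field E] [TopologicalSpace E] [IsTopologicalRing E] [T1Space E]
  {G : Type} [Group G] [TopologicalSpace G] [IsTopologicalGroup G] [CompactSpace G]
  [TotallyDisconnectedSpace G]

/-- The representation on linear maps. -/
def homRep (A₁ A : CRep E G) : CRep E G where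
  V := A₁.V →ₗ[E] A.V
  ρ := Representation.linHom A₁.ρ A.ρ
  cont := continuous_linHom A₁ A

omit [T1Space E] [IsTopologicalRing E] [IsTopologicalGroup G] [CompactSpace G]
  [TotallyDisconnectedSpace G] in
theorem charactersFinite_subgroup {K : Subgroup G} (hfin : CharactersFinite E K) (U : Subgroup G)
    (hU : IsOpen (U : Set G)) : CharactersFinite E (K.subgroupOf U) := by
  intro U' hU' δ
  let U'' : Subgroup G := U'.map U.subtype
  have hU'' : IsOpen (U'' : Set G) := by
    have h1 : (U'' : Set G) = Subtype.val '' (U' : Set U) := by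
      ext x
      simp only [U'', Subgroup.coe_map]
      rfl
    rw [h1]
    exact hU.isOpenMap_subtype_val _ hU'
  have hmem : ∀ g : U'', ∃ h : (g : G) ∈ U, (⟨g, h⟩ : U) ∈ U' := by
    rintro ⟨g, u, hu, rfl⟩
    exact ⟨u.2, hu⟩
  let φ : U'' →* U' :=
    { toFun := fun g => ⟨⟨g, (hmem g).1⟩, (hmem g).2⟩
      map_one' := rfl
      map_mul' := fun _ _ => rfl }
  have hφ : Continuous φ := by
    refine Continuous.subtype_mk (Continuous.subtype_mk continuous_subtype_val _) _
  obtain ⟨n, hn, h⟩ := hfin U'' hU'' (δ.comap φ hφ)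
  refine ⟨n, hn, fun k hk => ?_⟩
  have hk' : ((k : U) : G) ∈ U'' := ⟨k.1, k.2, rfl⟩
  exact h ⟨((k : U) : G), hk'⟩ hk

/-- The piece `N` extends to a representation `R` of an open subgroup, with determinant `1`. -/
theorem exists_frame [ContinuousInv₀ E] [IsAlgClosed E] (hroot : RootNearOne E)
    (A : CRep E G) (hA : Irr A) (K : Subgroup G) [hK : K.Normal] (hfin : CharactersFinite E K) :
    ∃ U : Subgroup G, IsOpen (U : Set G) ∧ ∃ (R : CRep E U) (ι : R.V →ₗ[E] A.V)
      (p : A.V →ₗ[E] R.V), (∀ x, p (ι x) = x) ∧ Nontrivial R.V ∧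
      (∀ u, LinearMap.det (R.ρ u) = 1) ∧ finrank E R.V ∣ finrank E A.V ∧
      (∀ h : U, (h : G) ∈ K → (∀ x, A.ρ h (ι x) = ι (R.ρ h x)) ∧
        ∀ v, p (A.ρ h v) = R.ρ h (p v)) ∧
      ∀ U' : Subgroup G, IsOpen (U' : Set G) → ∀ W : Submodule E R.V,
        (∀ h : U, (h : G) ∈ U' ⊓ K → ∀ x ∈ W, R.ρ h x ∈ W) → W = ⊥ ∨ W = ⊤ := by
  obtain ⟨U, hU, R, ι, p, hpι, hnt, hdet, hdvd, hK', hirr⟩ := exists_extension hroot A hA K
  have hι : Function.Injective ι := Function.LeftInverse.injective hpι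
  have hUc : CompactSpace U :=
    isCompact_iff_compactSpace.mp (Subgroup.isClosed_of_isOpen U hU).isCompact
  let B : CRep E U := homRep R (A.comap U.subtype continuous_subtype_val)
  have hι0 : (ι : B.V) ≠ 0 := by
    intro h
    obtain ⟨x, hx⟩ := exists_ne (0 : R.V)
    exact hx (hι (by
      have := congrArg (fun φ : R.V →ₗ[E] A.V => φ x) (h : (ι : R.V →ₗ[E] A.V) = 0)
      simpa using this))
  have hv : ∀ h ∈ (⊤ : Subgroup U) ⊓ K.subgroupOf U, ∃ c : E, B.ρ h (ι : B.V) = c • (ι : B.V) := by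
    intro h hh
    obtain ⟨a, ha, -⟩ := hK' h hh.2
    refine ⟨a, ?_⟩
    refine LinearMap.ext fun x => ?_
    change A.ρ h (ι (R.ρ h⁻¹ x)) = a • ι x
    rw [ha, ← Module.End.mul_apply, rho_mul_inv, Module.End.one_apply]
  have hKn : (K.subgroupOf U).Normal := inferInstance
  have hev := translate_fixed B (K.subgroupOf U) (charactersFinite_subgroup hfin U hU) ⊤
    isOpen_univ ι hι0 hv 1
  obtain ⟨U₄, hU₄, -, hU₄p⟩ := exists_open_normal ((eventually_subgroup U hev).and (eventually_mem hU))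
  have hle : U₄ ≤ U := fun g hg => (hU₄p g hg).2
  refine ⟨U₄, hU₄, R.comap (Subgroup.inclusion hle) (continuous_inclusion hle), ι, p, hpι, hnt,
    fun u => hdet _, hdvd, ?_, ?_⟩
  · intro h hh
    have key : ∀ x, A.ρ h (ι x) = ι (R.ρ ⟨h, hle h.2⟩ x) := by
      intro x
      have h1 := (hU₄p h h.2).1 (hle h.2) hh
      rw [map_one, Module.End.one_apply] at h1
      have h2 := congrArg (fun φ : R.V →ₗ[E] A.V => φ (R.ρ ⟨h, hle h.2⟩ x)) h1
      change A.ρ h (ι (R.ρ (⟨h, hle h.2⟩ : U)⁻¹ (R.ρ ⟨h, hle h.2⟩ x))) =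
        ι (R.ρ ⟨h, hle h.2⟩ x) at h2
      rw [← Module.End.mul_apply (R.ρ _), rho_inv_mul, Module.End.one_apply] at h2
      exact h2
    obtain ⟨a, ha, hap⟩ := hK' ⟨h, hle h.2⟩ hh
    obtain ⟨x, hx⟩ := exists_ne (0 : R.V)
    have h3 : ι (R.ρ ⟨h, hle h.2⟩ x) ≠ 0 := by
      intro h0
      have h4 : R.ρ ⟨h, hle h.2⟩ x = 0 := hι (by rw [h0, map_zero])
      have h5 := congrArg (R.ρ (⟨h, hle h.2⟩ : U)⁻¹) h4
      rw [← Module.End.mul_apply, rho_inv_mul, Module.End.one_apply, map_zero] at h5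
      exact hx h5
    have h6 : (1 : E) • ι (R.ρ ⟨h, hle h.2⟩ x) = a • ι (R.ρ ⟨h, hle h.2⟩ x) := by
      rw [one_smul]
      exact (key x).symm.trans (ha x)
    have h7 : a = 1 := (smul_left_injective E h3 h6).symm
    refine ⟨key, fun v => ?_⟩
    have h8 := hap v
    rw [h7, one_smul] at h8
    exact h8
  · intro U' hU' W hW
    refine hirr (U' ⊓ U₄) (hU'.inter hU₄) W fun h hh x hx => ?_
    exact hW ⟨h, hh.1.2⟩ ⟨hh.1.1, hh.2⟩ x hx

/-- A nonzero representation has an irreducible subrepresentation. -/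
theorem exists_irr_sub (B : CRep E G) (hB : Nontrivial B.V) :
    ∃ (N : Submodule E B.V) (h : ∀ g, ∀ v ∈ N, B.ρ g v ∈ N), Irr (B.sub N h) := by
  classical
  let 𝒮 : Set (Submodule E B.V) := {W | W ≠ ⊥ ∧ ∀ g, ∀ w ∈ W, B.ρ g w ∈ W}
  have hne : 𝒮.Nonempty := ⟨⊤, top_ne_bot, fun _ _ _ => trivial⟩
  obtain ⟨N, ⟨hN0, hN⟩, hmin⟩ := (wellFounded_lt (α := Submodule E B.V)).has_min 𝒮 hne
  have hNn : Nontrivial N := Submodule.nontrivial_iff_ne_bot.mpr hN0
  refine ⟨N, hN, hNn, fun W hW => ?_⟩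
  let W' : Submodule E N := W
  have hW' : ∀ g, ∀ v ∈ W', (⟨B.ρ g v.1, hN g v.1 v.2⟩ : N) ∈ W' := hW
  by_cases hW0 : W' = ⊥
  · exact Or.inl hW0
  right
  have h1 : W'.map N.subtype ∈ 𝒮 := by
    refine ⟨?_, ?_⟩
    · intro hb
      refine hW0 (eq_bot_iff.mpr fun x hx => ?_)
      have h3 : N.subtype x ∈ W'.map N.subtype := ⟨x, hx, rfl⟩
      rw [hb, Submodule.mem_bot] at h3
      exact (Submodule.mem_bot E).mpr (Subtype.ext h3)
    · rintro g _ ⟨w, hw, rfl⟩
      exact ⟨⟨B.ρ g w.1, hN g w.1 w.2⟩, hW' g w hw, rfl⟩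
  have h2 : W'.map N.subtype = N :=
    (lt_or_eq_of_le (Submodule.map_subtype_le N W')).resolve_left (hmin _ h1)
  change W' = ⊤
  rw [eq_top_iff]
  rintro x -
  have h3 : x.1 ∈ W'.map N.subtype := by
    rw [h2]
    exact x.2
  obtain ⟨y, hy, hyx⟩ := h3
  have h6 : y = x := Subtype.ext hyx
  exact h6 ▸ hy

section

variable {E : Type} [Field E] [TopologicalSpace E] [IsTopologicalRing E]
  {G : Type} [Group G] [TopologicalSpace G] {Q : Type} [Group Q] [TopologicalSpace Q]

/-- The linear maps `A₁ → A` which commute with the kernel of `β` form a representation of `Q`. -/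
theorem exists_hom_descent [IsTopologicalGroup G] (A₁ A : CRep E G) (β : G →* Q)
    (hβ : IsQuotientMap β) :
    ∃ (B : CRep E Q) (F : B.V →ₗ[E] (A₁.V →ₗ[E] A.V)), Function.Injective F ∧
      (∀ φ, (∀ n, β n = 1 → ∀ v, φ (A₁.ρ n v) = A.ρ n (φ v)) → ∃ b, F b = φ) ∧
      ∀ g b v, F (B.ρ (β g) b) (A₁.ρ g v) = A.ρ g (F b v) := by
  let U := commSub A₁ A β
  let ρU : Representation E G U :=
    { toFun := fun g => (Representation.linHom A₁.ρ A.ρ g).restrict
        (fun φ hφ => commSub_stable A₁ A β g φ hφ)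
      map_one' := by
        ext x
        simp [LinearMap.restrict_apply]
      map_mul' := fun a b => by
        ext x
        simp [LinearMap.restrict_apply] }
  have hρU : ∀ g h, β g = β h → ρU g = ρU h := by
    intro g h hgh
    refine LinearMap.ext fun φ => Subtype.ext ?_
    exact commSub_trivial A₁ A β g h hgh φ.1 φ.2
  have hs : ∀ q, β (Function.surjInv hβ.surjective q) = q :=
    Function.surjInv_eq hβ.surjective
  let ρB : Representation E Q U :=
    { toFun := fun q => ρU (Function.surjInv hβ.surjective q)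
      map_one' := by
        rw [hρU _ 1 (by rw [hs, map_one]), map_one]
      map_mul' := fun a b => by
        rw [← map_mul]
        exact hρU _ _ (by rw [hs, map_mul, hs, hs]) }
  have hρB : ∀ g, ρB (β g) = ρU g := fun g => hρU _ _ (hs _)
  let B : CRep E Q :=
    { V := U
      ρ := ρB
      cont := by
        intro φ f
        rw [hβ.continuous_iff]
        obtain ⟨F, hF⟩ := LinearMap.exists_extend f
        have h1 : (fun q => f (ρB q φ)) ∘ β = fun g =>
            F (Representation.linHom A₁.ρ A.ρ g φ.1) := by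
          funext g
          change f (ρB (β g) φ) = _
          rw [hρB, ← hF]
          rfl
        rw [h1]
        exact continuous_linHom A₁ A φ.1 F }
  refine ⟨B, U.subtype, U.injective_subtype, fun φ hφ => ⟨⟨φ, hφ⟩, rfl⟩, ?_⟩
  intro g φ v
  change ((ρB (β g) φ : U) : A₁.V →ₗ[E] A.V) (A₁.ρ g v) = A.ρ g (φ.1 v)
  rw [hρB]
  change (Representation.linHom A₁.ρ A.ρ g φ.1) (A₁.ρ g v) = A.ρ g (φ.1 v)
  rw [Representation.linHom_apply]
  simp only [LinearMap.comp_apply]
  rw [← Module.End.mul_apply (A₁.ρ g⁻¹), ← map_mul, inv_mul_cancel, map_one,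
    Module.End.one_apply]

end

end Pool.Agent.X300.GO
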