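import Pool.Agent.X307.LO.Gen
import Pool.Agent.X300.GO.Frame2

/-!
# Notions for representations restricted to subgroups
-/

namespace Pool.Agent.X300.GO

open Module
open Pool.Agent.X307.LO

variable {E : Type} [Field E] [TopologicalSpace E] {G : Type} [Group G] [TopologicalSpace G]
  {H : Type} [Group H] [TopologicalSpace H]

/-- The rank. -/
noncomputable def rank (A : CRep E G) : ℕ := finrank E A.V

/-- `N` is Lie-irreducible on `K`: it is nonzero and irreducible under `U ∩ K` for all open
subgroups `U`. -/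
def LieIrrOn (K : Subgroup G) (N : CRep E G) : Prop :=
  Nontrivial N.V ∧ ∀ U : Subgroup G, IsOpen (U : Set G) → ∀ W : Submodule E N.V,
    (∀ g ∈ U ⊓ K, ∀ v ∈ W, N.act g v ∈ W) → W = ⊥ ∨ W = ⊤

/-- The determinant of `N` is trivial. -/
def DetOne (N : CRep E G) : Prop := ∀ g, LinearMap.det (N.ρ g) = 1

/-- There is a nonzero linear map from `A₁` to `A` which commutes with `K`, where `K` acts on `A`
through `i`. -/
def HasMapOn (i : H →* G) (K : Subgroup H) (A₁ : CRep E H) (A : CRep E G) : Prop :=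
  ∃ φ : A₁.V →ₗ[E] A.V, φ ≠ 0 ∧ ∀ n ∈ K, ∀ v, φ (A₁.act n v) = A.act (i n) (φ v)

/-- The linear maps `ι : N → A` and `p : A → N` commute with `K`. -/
def CommuteOn (i : H →* G) (K : Subgroup H) (N : CRep E H) (A : CRep E G) (ι : N.V →ₗ[E] A.V)
    (p : A.V →ₗ[E] N.V) : Prop :=
  ∀ n ∈ K, (∀ x, ι (N.act n x) = A.act (i n) (ι x)) ∧ ∀ v, p (A.act (i n) v) = N.act n (p v)

/-- The restriction of `N` to `K` is a direct summand of the restriction of `A`. -/
def IsSummandOn (i : H →* G) (K : Subgroup H) (N : CRep E H) (A : CRep E G) : Prop :=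
  ∃ (ι : N.V →ₗ[E] A.V) (p : A.V →ₗ[E] N.V), (∀ x, p (ι x) = x) ∧ CommuteOn i K N A ι p

/-- For an open subgroup `U`, the group `U ∩ K` has a common eigenvector. -/
def HasLineOn (K : Subgroup G) (A : CRep E G) : Prop :=
  ∃ U : Subgroup G, IsOpen (U : Set G) ∧ ∃ v : A.V, v ≠ 0 ∧ ∀ h ∈ U ⊓ K, ∃ c : E, A.act h v = c • v

/-- The image of `K` in `A` is virtually solvable: for an open subgroup `U`, some term of the derived
series of `U ∩ K` acts trivially on `A`. -/
def VirtuallySolvableOn (K : Subgroup G) (A : CRep E G) : Prop :=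
  ∃ U : Subgroup G, IsOpen (U : Set G) ∧ ActsSolvably A (U ⊓ K)

/-- `U ∩ K` is solvable for an open subgroup `U`. -/
def VirtuallySolvable (K : Subgroup G) : Prop :=
  ∃ U : Subgroup G, IsOpen (U : Set G) ∧ Group.IsSolvable (U ⊓ K : Subgroup G)

theorem LieIrrOn.irr {K : Subgroup G} {N : CRep E G} (h : LieIrrOn K N) : Irr N :=
  ⟨h.1, fun W hW => h.2 ⊤ isOpen_univ W fun g _ v hv => hW g v hv⟩

theorem DetOne.finite {N : CRep E G} (h : DetOne N) : DetFinite N :=
  ⟨1, one_pos, fun g => by rw [h g, one_pow]⟩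

/-- An endomorphism of a line with determinant `1` is the identity. -/
theorem eq_one_of_det {V : Type} [AddCommGroup V] [Module E V] [FiniteDimensional E V]
    (h1 : finrank E V = 1) (f : V →ₗ[E] V) (hf : LinearMap.det f = 1) : f = 1 := by
  have hn : Nontrivial V := nontrivial_of_finrank_pos (R := E) (by rw [h1]; exact one_pos)
  obtain ⟨x, hx⟩ := exists_ne (0 : V)
  have h2 := (finrank_eq_one_iff_of_nonzero' x hx).mp h1
  obtain ⟨c, hc⟩ := h2 (f x)
  have h3 : f = c • (1 : V →ₗ[E] V) := by
    refine LinearMap.ext fun w => ?_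
    obtain ⟨a, rfl⟩ := h2 w
    rw [map_smul, ← hc, LinearMap.smul_apply, Module.End.one_apply, smul_comm]
  rw [h3, LinearMap.det_smul, map_one, mul_one, h1, pow_one] at hf
  rw [h3, hf, one_smul]

/-- The trivial representation of rank one. -/
def triv (E : Type) [Field E] [TopologicalSpace E] (G : Type) [Group G] [TopologicalSpace G] :
    CRep E G where
  V := E
  ρ := 1
  cont v f := by
    change Continuous fun _ : G => f v
    exact continuous_const

end Pool.Agent.X300.GO
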